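import Mathlib

namespace Pool.Agent.MP5897b0

/-- An almost disjoint family of subspaces of `⊕_{n ∈ ℕ} F` (modelled as `ℕ →₀ F`): its members are
infinite-dimensional linear subspaces, and any two different members have a finite-dimensional
intersection. -/
def IsADFamily (F : Type*) [Field F] (A : Set (Submodule F (ℕ →₀ F))) : Prop :=
  (∀ Y ∈ A, ¬ FiniteDimensional F Y) ∧
    ∀ X ∈ A, ∀ Y ∈ A, X ≠ Y → FiniteDimensional F (X ⊓ Y : Submodule F (ℕ →₀ F))

/-- A mad family of subspaces: an almost disjoint family of subspaces which is not properly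
contained in another almost disjoint family of subspaces. -/
def IsMadFamily (F : Type*) [Field F] (A : Set (Submodule F (ℕ →₀ F))) : Prop :=
  IsADFamily F A ∧ ∀ B : Set (Submodule F (ℕ →₀ F)), IsADFamily F B → A ⊆ B → B = A

open Classical in
/-- The characteristic function of a subspace, a point of `2^E` for `E = ℕ →₀ F`. -/
noncomputable def charPoint (F : Type*) [Field F] (Y : Submodule F (ℕ →₀ F)) :
    (ℕ →₀ F) → Bool := fun x => decide (x ∈ Y)

/-- The family, seen as a subset of the product space `2^E` (`Bool` discrete), is analytic. -/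
def IsAnalyticFamily (F : Type*) [Field F] (A : Set (Submodule F (ℕ →₀ F))) : Prop :=
  MeasureTheory.AnalyticSet (charPoint F '' A)

/-- The family, seen as a subset of the product space `2^E`, is a Borel set. -/
def IsBorelFamily (F : Type*) [Field F] (A : Set (Submodule F (ℕ →₀ F))) : Prop :=
  @MeasurableSet ((ℕ →₀ F) → Bool) (borel ((ℕ →₀ F) → Bool)) (charPoint F '' A)

end Pool.Agent.MP5897b0
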