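import Mathlib

namespace Pool.Agent.MP5897b0

/-- The vector space with basis indexed by the natural numbers. -/
abbrev V (F : Type*) [Field F] := ℕ →₀ F

section Basic

variable {F : Type*} [Field F]

/-- supported below `n` -/
def Blw (n : ℕ) (x : V F) : Prop := ∀ k, n ≤ k → x k = 0
/-- supported in `[n, ∞)` -/
def Abv (n : ℕ) (x : V F) : Prop := ∀ k, k < n → x k = 0
/-- first nonzero coefficient is at `n` and equals one -/
def Fst (z : V F) (n : ℕ) : Prop := z n = 1 ∧ ∀ k, k < n → z k = 0
/-- first support index `p`, last support index `q` -/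
def Sh (x : V F) (p q : ℕ) : Prop := x p ≠ 0 ∧ x q ≠ 0 ∧ (∀ k, k < p → x k = 0) ∧ ∀ k, q < k → x k = 0

lemma Blw.mono {m n : ℕ} {x : V F} (h : Blw m x) (hmn : m ≤ n) : Blw n x :=
  fun k hk => h k (hmn.trans hk)
lemma Abv.mono {m n : ℕ} {x : V F} (h : Abv n x) (hmn : m ≤ n) : Abv m x :=
  fun k hk => h k (lt_of_lt_of_le hk hmn)
lemma Blw.add {n : ℕ} {x y : V F} (hx : Blw n x) (hy : Blw n y) : Blw n (x + y) := by
  intro k hk; simp [hx k hk, hy k hk]
lemma Blw.sub {n : ℕ} {x y : V F} (hx : Blw n x) (hy : Blw n y) : Blw n (x - y) := by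
  intro k hk; simp [hx k hk, hy k hk]
lemma Blw.smul {n : ℕ} {x : V F} (b : F) (hx : Blw n x) : Blw n (b • x) := by
  intro k hk; simp [hx k hk]
lemma Abv.add {n : ℕ} {x y : V F} (hx : Abv n x) (hy : Abv n y) : Abv n (x + y) := by
  intro k hk; simp [hx k hk, hy k hk]
lemma Abv.sub {n : ℕ} {x y : V F} (hx : Abv n x) (hy : Abv n y) : Abv n (x - y) := by
  intro k hk; simp [hx k hk, hy k hk]
lemma Abv.smul {n : ℕ} {x : V F} (b : F) (hx : Abv n x) : Abv n (b • x) := by
  intro k hk; simp [hx k hk]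
lemma blw_zero (n : ℕ) : Blw n (0 : V F) := by intro k _; simp

lemma eq_zero_of_blw_zero {x : V F} (h : Blw 0 x) : x = 0 := by
  ext k; simpa using h k (Nat.zero_le k)

lemma blw_span {n : ℕ} {t : Set (V F)} (ht : ∀ w ∈ t, Blw n w) {u : V F}
    (hu : u ∈ Submodule.span F t) : Blw n u := by
  induction hu using Submodule.span_induction with
  | mem x hx => exact ht x hx
  | zero => exact blw_zero n
  | add x y _ _ hx hy => exact hx.add hy
  | smul a x _ hx => exact hx.smul a

lemma exists_ne_of_span {t : Set (V F)} {u : V F} (hu : u ∈ Submodule.span F t) {k : ℕ}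
    (hk : u k ≠ 0) : ∃ w ∈ t, w k ≠ 0 := by
  by_contra hcon
  push Not at hcon
  apply hk
  induction hu using Submodule.span_induction with
  | mem x hx => exact hcon x hx
  | zero => simp
  | add x y _ _ hx hy => 
    by_cases h1 : x k = 0
    · by_cases h2 : y k = 0
      · simp [h1, h2]
      · exact absurd (hy h2) h2
    · exact absurd (hx h1) h1
  | smul a x _ hx =>
    by_cases h1 : x k = 0
    · simp [h1]
    · exact absurd (hx h1) h1

/-- restriction to `[n, ∞)` -/
noncomputable def tl (n : ℕ) (x : V F) : V F := x.filter (fun k => n ≤ k)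
/-- restriction to `[0, n)` -/
noncomputable def lw (n : ℕ) (x : V F) : V F := x.filter (fun k => k < n)

lemma tl_of_le {n k : ℕ} (x : V F) (h : n ≤ k) : tl n x k = x k := by
  simp [tl, h]
lemma tl_of_lt {n k : ℕ} (x : V F) (h : k < n) : tl n x k = 0 := by
  simp [tl, h]
lemma lw_of_lt {n k : ℕ} (x : V F) (h : k < n) : lw n x k = x k := by
  simp [lw, h]
lemma lw_of_le {n k : ℕ} (x : V F) (h : n ≤ k) : lw n x k = 0 := by
  simp [lw, h]
lemma lw_add_tl (n : ℕ) (x : V F) : lw n x + tl n x = x := by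
  ext k
  by_cases h : k < n
  · simp [lw_of_lt x h, tl_of_lt x h]
  · push Not at h
    simp [lw_of_le x h, tl_of_le x h]
lemma blw_lw (n : ℕ) (x : V F) : Blw n (lw n x) := fun _ hk => lw_of_le x hk
lemma abv_tl (n : ℕ) (x : V F) : Abv n (tl n x) := fun _ hk => tl_of_lt x hk

lemma Sh.le {x : V F} {p q : ℕ} (h : Sh x p q) : p ≤ q := by
  by_contra hc
  push Not at hc
  exact h.1 (h.2.2.2 p hc)

lemma Sh.ne_zero {x : V F} {p q : ℕ} (h : Sh x p q) : x ≠ 0 := by
  rintro rfl; exact h.1 (by simp)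

lemma exists_sh {x : V F} (h : x ≠ 0) : ∃ p q, Sh x p q := by
  have hne : x.support.Nonempty := Finsupp.support_nonempty_iff.mpr h
  refine ⟨x.support.min' hne, x.support.max' hne, ?_, ?_, ?_, ?_⟩
  · exact Finsupp.mem_support_iff.mp (x.support.min'_mem hne)
  · exact Finsupp.mem_support_iff.mp (x.support.max'_mem hne)
  · intro k hk
    by_contra hc
    exact absurd (x.support.min'_le k (Finsupp.mem_support_iff.mpr hc)) (by omega)
  · intro k hk
    by_contra hc
    exact absurd (x.support.le_max' k (Finsupp.mem_support_iff.mpr hc)) (by omega)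

lemma Sh.add {x y : V F} {p q p' q' : ℕ} (hx : Sh x p q) (hy : Sh y p' q') (h : q < p') :
    Sh (x + y) p q' := by
  have h1 := hx.le
  have h2 := hy.le
  refine ⟨?_, ?_, ?_, ?_⟩
  · simp only [Finsupp.add_apply, hy.2.2.1 p (by omega), add_zero]; exact hx.1
  · simp only [Finsupp.add_apply, hx.2.2.2 q' (by omega), zero_add]; exact hy.2.1
  · intro k hk; simp [hx.2.2.1 k hk, hy.2.2.1 k (by omega)]
  · intro k hk; simp [hx.2.2.2 k (by omega), hy.2.2.2 k hk]

lemma Sh.smul {x : V F} {p q : ℕ} (hx : Sh x p q) {b : F} (hb : b ≠ 0) : Sh (b • x) p q := by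
  refine ⟨?_, ?_, ?_, ?_⟩
  · simpa using ⟨hb, hx.1⟩
  · simpa using ⟨hb, hx.2.1⟩
  · intro k hk; simp [hx.2.2.1 k hk]
  · intro k hk; simp [hx.2.2.2 k hk]

lemma Sh.blw {x : V F} {p q m : ℕ} (hx : Sh x p q) (h : q < m) : Blw m x :=
  fun k hk => hx.2.2.2 k (by omega)
lemma Sh.abv {x : V F} {p q m : ℕ} (hx : Sh x p q) (h : m ≤ p) : Abv m x :=
  fun k hk => hx.2.2.1 k (by omega)

open Classical in
/-- positions of coefficient changes -/
noncomputable def Ch (x : V F) : Finset ℕ :=
  x.support.filter (fun i => ∃ j, i < j ∧ x j ≠ 0 ∧ x j ≠ x i ∧ ∀ k, i < k → k < j → x k = 0)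

/-- number of coefficient changes -/
noncomputable def Nc (x : V F) : ℕ := (Ch x).card

lemma mem_Ch {x : V F} {i : ℕ} : i ∈ Ch x ↔
    x i ≠ 0 ∧ ∃ j, i < j ∧ x j ≠ 0 ∧ x j ≠ x i ∧ ∀ k, i < k → k < j → x k = 0 := by
  simp [Ch]

lemma Ch_smul {x : V F} {b : F} (hb : b ≠ 0) : Ch (b • x) = Ch x := by
  ext i
  simp [mem_Ch, hb]

lemma Nc_smul {x : V F} {b : F} (hb : b ≠ 0) : Nc (b • x) = Nc x := by
  simp [Nc, Ch_smul hb]

lemma Ch_tl (n : ℕ) (x : V F) : Ch (tl n x) = (Ch x).filter (fun i => n ≤ i) := by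
  ext i
  simp only [mem_Ch, Finset.mem_filter]
  constructor
  · rintro ⟨h1, j, hj, h2, h3, h4⟩
    have hi : n ≤ i := by
      by_contra hc
      push Not at hc
      exact h1 (tl_of_lt x hc)
    rw [tl_of_le x hi] at h1 h3
    rw [tl_of_le x (by omega)] at h2 h3
    refine ⟨⟨h1, j, hj, h2, h3, fun k hk1 hk2 => ?_⟩, hi⟩
    rw [← tl_of_le x (show n ≤ k by omega)]
    exact h4 k hk1 hk2
  · rintro ⟨⟨h1, j, hj, h2, h3, h4⟩, hi⟩
    refine ⟨by rwa [tl_of_le x hi], j, hj, by rwa [tl_of_le x (by omega)], ?_, fun k hk1 hk2 => ?_⟩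
    · rwa [tl_of_le x (by omega), tl_of_le x hi]
    · rw [tl_of_le x (by omega)]; exact h4 k hk1 hk2

lemma Nc_split (n : ℕ) (x : V F) :
    Nc x = ((Ch x).filter (fun i => i < n)).card + Nc (tl n x) := by
  rw [Nc, Nc, Ch_tl, ← Finset.card_filter_add_card_filter_not (s := Ch x) (fun i => i < n)]
  simp

open Classical in
lemma Nc_add {x y : V F} {p q p' q' : ℕ} (hx : Sh x p q) (hy : Sh y p' q') (h : q < p') :
    Nc (x + y) = Nc x + Nc y + (if x q = y p' then 0 else 1) := by
  have h1 := hx.le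
  have h2 := hy.le
  have ex : ∀ k, k < p' → (x + y) k = x k := by
    intro k hk; simp [hy.2.2.1 k hk]
  have ey : ∀ k, q < k → (x + y) k = y k := by
    intro k hk; simp [hx.2.2.2 k hk]
  have key : Ch (x + y) = Ch x ∪ Ch y ∪ (if x q = y p' then ∅ else {q}) := by
    ext i
    have hmem : i ∈ (if x q = y p' then (∅ : Finset ℕ) else {q}) ↔ (i = q ∧ x q ≠ y p') := by
      by_cases hh : x q = y p' <;> simp [hh]
    simp only [Finset.mem_union, hmem, mem_Ch]
    constructor
    · rintro ⟨a1, j, a2, a3, a4, a5⟩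
      rcases lt_trichotomy i q with hi | hi | hi
      · left; left
        have hj : j ≤ q := by
          by_contra hc
          push Not at hc
          have := a5 q hi hc
          rw [ex q h] at this
          exact hx.2.1 this
        rw [ex i (by omega)] at a1 a4
        rw [ex j (by omega)] at a3 a4
        refine ⟨a1, j, a2, a3, a4, fun k hk1 hk2 => ?_⟩
        rw [← ex k (by omega)]; exact a5 k hk1 hk2
      · right
        refine ⟨hi, ?_⟩
        subst hi
        have hj : j = p' := by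
          rcases lt_trichotomy j p' with hj | hj | hj
          · rw [ey j a2] at a3
            exact absurd (hy.2.2.1 j hj) a3
          · exact hj
          · have := a5 p' h hj
            rw [ey p' h] at this
            exact absurd this hy.1
        subst hj
        rw [ey _ h, ex i h] at a4
        exact fun hh => a4 hh.symm
      · left; right
        rw [ey i hi] at a1 a4
        rw [ey j (by omega)] at a3 a4
        refine ⟨a1, j, a2, a3, a4, fun k hk1 hk2 => ?_⟩
        rw [← ey k (by omega)]; exact a5 k hk1 hk2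
    · rintro ((⟨a1, j, a2, a3, a4, a5⟩ | ⟨a1, j, a2, a3, a4, a5⟩) | ⟨hi, hne⟩)
      · have hj : j ≤ q := by
          by_contra hc
          push Not at hc
          exact a3 (hx.2.2.2 j hc)
        refine ⟨by rwa [ex i (by omega)], j, a2, by rwa [ex j (by omega)], ?_, fun k hk1 hk2 => ?_⟩
        · rwa [ex i (by omega), ex j (by omega)]
        · rw [ex k (by omega)]; exact a5 k hk1 hk2
      · have hi : p' ≤ i := by
          by_contra hc
          push Not at hc
          exact a1 (hy.2.2.1 i hc)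
        refine ⟨by rwa [ey i (by omega)], j, a2, by rwa [ey j (by omega)], ?_, fun k hk1 hk2 => ?_⟩
        · rwa [ey i (by omega), ey j (by omega)]
        · rw [ey k (by omega)]; exact a5 k hk1 hk2
      · subst hi
        refine ⟨by rw [ex i h]; exact hx.2.1, p', h, by rw [ey p' h]; exact hy.1, ?_, fun k hk1 hk2 => ?_⟩
        · rw [ey p' h, ex i h]; exact fun hh => hne hh.symm
        · rw [ey k hk1]; exact hy.2.2.1 k hk2
  have hxs : ∀ i ∈ Ch x, i < q := by
    intro i hi
    obtain ⟨a1, j, a2, a3, _⟩ := mem_Ch.mp hi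
    by_contra hc
    push Not at hc
    exact a3 (hx.2.2.2 j (by omega))
  have hys : ∀ i ∈ Ch y, q < i := by
    intro i hi
    obtain ⟨a1, _⟩ := mem_Ch.mp hi
    by_contra hc
    push Not at hc
    exact a1 (hy.2.2.1 i (by omega))
  have d1 : Disjoint (Ch x) (Ch y) := by
    rw [Finset.disjoint_left]
    intro i hi hi'
    have := hxs i hi
    have := hys i hi'
    omega
  unfold Nc
  rw [key]
  by_cases hh : x q = y p'
  · simp only [hh, if_true, Finset.union_empty]
    exact Finset.card_union_of_disjoint d1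
  · simp only [hh, if_false]
    rw [Finset.card_union_of_disjoint, Finset.card_union_of_disjoint d1, Finset.card_singleton]
    rw [Finset.disjoint_singleton_right, Finset.mem_union]
    rintro (hc | hc)
    · exact absurd (hxs q hc) (by omega)
    · exact absurd (hys q hc) (by omega)

end Basic

end Pool.Agent.MP5897b0
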