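import Mathlib
import Pool.Agent.MP_5897b0.PosA

namespace Pool.Agent.MP5897b0

section Coding

variable {F : Type*} [Field F]

/-- properties of the code function -/
structure Coding (c : List (V F) → ℕ) : Prop where
  inj : Function.Injective c
  even : ∀ s, Even (c s)
  big : ∀ s, ∀ w ∈ s, ∀ k, w k ≠ 0 → k + 2 ≤ c s

lemma exists_bound (s : List (V F)) : ∃ M : ℕ, ∀ w ∈ s, ∀ k, w k ≠ 0 → k + 2 ≤ M := by
  induction s with
  | nil => exact ⟨0, by simp⟩
  | cons a t ih =>
    obtain ⟨M, hM⟩ := ih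
    refine ⟨max M (a.support.sup id + 2), ?_⟩
    intro w hw k hk
    rcases List.mem_cons.mp hw with rfl | hw
    · have : k ≤ w.support.sup id := Finset.le_sup (f := id) (Finsupp.mem_support_iff.mpr hk)
      omega
    · have := hM w hw k hk
      omega

lemma exists_coding [Countable F] : ∃ c : List (V F) → ℕ, Coding c := by
  obtain ⟨e, he⟩ := exists_injective_nat (List (V F))
  choose M hM using (exists_bound (F := F))
  refine ⟨fun s => 2 * Nat.pair (e s) (M s), ?_, ?_, ?_⟩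
  · intro s t hst
    have h1 : Nat.pair (e s) (M s) = Nat.pair (e t) (M t) := by simpa using hst
    exact he (Nat.pair_eq_pair.mp h1).1
  · intro s; exact even_two_mul _
  · intro s w hw k hk
    have h1 := hM s w hw k hk
    have h2 := Nat.right_le_pair (e s) (M s)
    show k + 2 ≤ 2 * _
    omega

/-- the arithmetic of `2^a * odd` -/
lemma pow_odd_unique {a b q r : ℕ} (h : 2 ^ a * (2 * q + 1) = 2 ^ b * (2 * r + 1)) : a = b := by
  wlog hab : a ≤ b generalizing a b q r
  · exact (this h.symm (by omega)).symm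
  obtain ⟨d, rfl⟩ := Nat.exists_eq_add_of_le hab
  rw [pow_add, mul_assoc] at h
  have h2 : 2 * q + 1 = 2 ^ d * (2 * r + 1) := Nat.eq_of_mul_eq_mul_left (by positivity) h
  rcases d with _ | d
  · simp
  · exfalso
    rw [pow_succ] at h2
    have : 2 * q + 1 = 2 * (2 ^ d * (2 * r + 1)) := by rw [h2]; ring
    omega

lemma arith {a K q c e r : ℕ} (hK : Odd K) (he : Even e) (haK : a < K) (hcK : c + 1 ≤ K)
    (hce : c + 1 ≤ e) (h : 2 ^ a + 2 ^ K * (2 * q + 1) = c + 2 ^ e * (2 * r + 1)) :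
    c = 0 ∧ a = e := by
  by_cases hc : c = 0
  · refine ⟨hc, ?_⟩
    subst hc
    obtain ⟨d, rfl⟩ := Nat.exists_eq_add_of_lt haK
    have h1 : 2 ^ a * (2 * (2 ^ d * (2 * q + 1)) + 1) = 2 ^ e * (2 * r + 1) := by
      rw [show 2 ^ a * (2 * (2 ^ d * (2 * q + 1)) + 1) = 2 ^ a + 2 ^ (a + d + 1) * (2 * q + 1) by ring]
      rw [h]; ring
    exact pow_odd_unique h1
  · exfalso
    have hpos : 0 < c := Nat.pos_of_ne_zero hc
    have hlt : c < 2 ^ (c + 1) := lt_trans (Nat.lt_two_pow_self) (Nat.pow_lt_pow_right (by norm_num) (by omega))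
    have hz : ((2 : ℤ) ^ (c + 1)) ∣ (2 : ℤ) ^ a - c := by
      have h1 : ((2 : ℤ) ^ (c + 1)) ∣ (2 : ℤ) ^ K * (2 * q + 1) :=
        Dvd.dvd.mul_right (pow_dvd_pow 2 hcK) _
      have h2 : ((2 : ℤ) ^ (c + 1)) ∣ (2 : ℤ) ^ e * (2 * r + 1) :=
        Dvd.dvd.mul_right (pow_dvd_pow 2 hce) _
      have h3 : (2 : ℤ) ^ a - c = (2 : ℤ) ^ e * (2 * r + 1) - (2 : ℤ) ^ K * (2 * q + 1) := by
        have : ((2 : ℤ) ^ a + 2 ^ K * (2 * q + 1)) = c + 2 ^ e * (2 * r + 1) := by exact_mod_cast h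
        linarith
      rw [h3]
      exact dvd_sub h2 h1
    have hltz : (c : ℤ) < 2 ^ (c + 1) := by exact_mod_cast hlt
    by_cases hac : c + 1 ≤ a
    · have h1 : ((2 : ℤ) ^ (c + 1)) ∣ (2 : ℤ) ^ a := pow_dvd_pow 2 hac
      have h2 : ((2 : ℤ) ^ (c + 1)) ∣ (c : ℤ) := by
        have := dvd_sub h1 hz
        simpa using this
      have := Int.le_of_dvd (by exact_mod_cast hpos) h2
      omega
    · have h1 : (2 : ℤ) ^ a < 2 ^ (c + 1) := pow_lt_pow_right₀ (by norm_num) (by omega)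
      have h2 : (0 : ℤ) < 2 ^ a := by positivity
      have h3 : (2 : ℤ) ^ a - c = 0 := by
        apply Int.eq_zero_of_abs_lt_dvd hz
        rw [abs_lt]
        constructor <;> omega
      have h4 : 2 ^ a = c := by
        have : (2 : ℤ) ^ a = c := by linarith
        exact_mod_cast this
      have h5 : 2 ^ K * (2 * q + 1) = 2 ^ e * (2 * r + 1) := by omega
      have h6 := pow_odd_unique h5
      subst h6
      exact (Nat.not_even_iff_odd.mpr hK) he

/-- block, monic and code conditions (newest block at the head) -/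
def Pre (c : List (V F) → ℕ) : List (V F) → Prop
  | [] => True
  | ζ :: t => Pre c t ∧ (∃ n, Fst ζ n ∧ ∀ w ∈ t, Blw n w) ∧ ∃ q, Nc ζ = 2 ^ (c t) * (2 * q + 1)

/-- `y` is in the span of the list but not of its tail -/
def Claims : List (V F) → V F → Prop
  | [], _ => False
  | ζ :: t, y => ∃ b : F, b ≠ 0 ∧ ∃ u ∈ Submodule.span F {w | w ∈ t}, y = u + b • ζ

/-- the list `s` claims some `x + z` with `x` below `z`, at a later start -/
def Bad (z : V F) (s : List (V F)) : Prop :=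
  ∃ ζ t n n' x, s = ζ :: t ∧ Fst ζ n' ∧ Fst z n ∧ n < n' ∧ Blw n x ∧ Claims (ζ :: t) (x + z)

noncomputable def mx (z : V F) : ℕ := z.support.sup id

noncomputable def mu (z : V F) : ℕ := (mx z + 1) ^ 2 + z.support.card

/-- cleanness of a block -/
def Clean (c : List (V F) → ℕ) (z : V F) : Prop :=
  ¬ ∃ s : List (V F), Pre c s ∧ Bad z s ∧ ∀ w ∈ s, ∃ _ : mu w < mu z, Clean c w
termination_by mu z
decreasing_by assumption

/-- valid sequences -/
def Valid (c : List (V F) → ℕ) (s : List (V F)) : Prop := Pre c s ∧ ∀ w ∈ s, Clean c w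

lemma pre_blw {c : List (V F) → ℕ} {ζ : V F} {t : List (V F)} (h : Pre c (ζ :: t)) {n : ℕ}
    (hn : Fst ζ n) : ∀ w ∈ t, Blw n w := by
  obtain ⟨_, ⟨m, hm, h2⟩, _⟩ := h
  have : m = n := by
    rcases lt_trichotomy m n with h | h | h
    · have := hn.2 m h; rw [hm.1] at this; exact absurd this one_ne_zero
    · exact h
    · have := hm.2 n h; rw [hn.1] at this; exact absurd this one_ne_zero
  exact this ▸ h2

lemma Fst.unique {z : V F} {m n : ℕ} (hm : Fst z m) (hn : Fst z n) : m = n := by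
  rcases lt_trichotomy m n with h | h | h
  · have := hn.2 m h; rw [hm.1] at this; exact absurd this one_ne_zero
  · exact h
  · have := hm.2 n h; rw [hn.1] at this; exact absurd this one_ne_zero

lemma le_mx {z : V F} {k : ℕ} (h : z k ≠ 0) : k ≤ mx z :=
  Finset.le_sup (f := id) (Finsupp.mem_support_iff.mpr h)

lemma mx_lt {z : V F} {n : ℕ} (h : Blw n z) (hn : 0 < n) : mx z < n := by
  unfold mx
  rw [Finset.sup_lt_iff (by exact hn)]
  intro k hk
  by_contra hc
  exact (Finsupp.mem_support_iff.mp hk) (h k (by simpa using hc))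

lemma card_le_mx (z : V F) : z.support.card ≤ mx z + 1 := by
  have : z.support ⊆ Finset.range (mx z + 1) := by
    intro k hk
    have := le_mx (Finsupp.mem_support_iff.mp hk)
    simp; omega
  simpa using Finset.card_le_card this

/-- the head of a claiming list agrees with the tail of the vector -/
lemma claims_tail {c : List (V F) → ℕ} {ζ : V F} {t : List (V F)} (h : Pre c (ζ :: t)) {n : ℕ}
    (hn : Fst ζ n) {y : V F} {b : F} {u : V F} (hu : u ∈ Submodule.span F {w | w ∈ t})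
    (hy : y = u + b • ζ) : (∀ k, n ≤ k → y k = b * ζ k) ∧ (∀ k, k < n → y k = u k) ∧ Blw n u := by
  have hub : Blw n u := blw_span (pre_blw h hn) hu
  refine ⟨fun k hk => ?_, fun k hk => ?_, hub⟩
  · rw [hy]; simp [hub k hk]
  · rw [hy]; simp [hn.2 k hk]

lemma mu_lt_of_bad {c : List (V F) → ℕ} {z : V F} {s : List (V F)} (hp : Pre c s) (hb : Bad z s) :
    ∀ w ∈ s, mu w < mu z := by
  obtain ⟨ζ, t, n, n', x, rfl, hζ, hz, hnn, hx, b, hb0, u, hu, hy⟩ := hb
  obtain ⟨h1, h2, h3⟩ := claims_tail hp hζ hu hy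
  have hzk : ∀ k, n' ≤ k → z k = b * ζ k := by
    intro k hk
    have := h1 k hk
    rw [Finsupp.add_apply, hx k (by omega), zero_add] at this
    exact this
  have hzn' : z n' ≠ 0 := by rw [hzk n' le_rfl, hζ.1]; simpa using hb0
  have hmz := le_mx hzn'
  intro w hw
  rcases List.mem_cons.mp hw with rfl | hw
  · have hsub : w.support ⊂ z.support := by
      rw [Finset.ssubset_iff_of_subset]
      · refine ⟨n, Finsupp.mem_support_iff.mpr (by rw [hz.1]; exact one_ne_zero), ?_⟩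
        rw [Finsupp.mem_support_iff, not_not]; exact hζ.2 n hnn
      · intro k hk
        rw [Finsupp.mem_support_iff] at hk ⊢
        have hk' : n' ≤ k := by
          by_contra hc
          exact hk (hζ.2 k (by omega))
        rw [hzk k hk']
        exact mul_ne_zero hb0 hk
    have hc := Finset.card_lt_card hsub
    have hm : mx w ≤ mx z := Finset.sup_mono hsub.1
    unfold mu
    nlinarith
  · have hw' : Blw n' w := pre_blw hp hζ w hw
    have hm : mx w < n' := mx_lt hw' (by omega)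
    have hc := card_le_mx w
    unfold mu
    nlinarith

lemma clean_iff {c : List (V F) → ℕ} {z : V F} :
    Clean c z ↔ ¬ ∃ s : List (V F), Valid c s ∧ Bad z s := by
  rw [Clean]
  apply not_congr
  constructor
  · rintro ⟨s, h1, h2, h3⟩
    exact ⟨s, ⟨h1, fun w hw => (h3 w hw).2⟩, h2⟩
  · rintro ⟨s, ⟨h1, h3⟩, h2⟩
    exact ⟨s, h1, h2, fun w hw => ⟨mu_lt_of_bad h1 h2 w hw, h3 w hw⟩⟩

lemma Valid.tail {c : List (V F) → ℕ} {ζ : V F} {t : List (V F)} (h : Valid c (ζ :: t)) :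
    Valid c t := ⟨h.1.1, fun w hw => h.2 w (List.mem_cons_of_mem _ hw)⟩

lemma Valid.suffix {c : List (V F) → ℕ} {s t : List (V F)} (h : Valid c s) (hst : t <:+ s) :
    Valid c t := by
  induction s with
  | nil => 
    rw [List.suffix_nil] at hst
    subst hst; exact h
  | cons a s ih =>
    rcases List.suffix_cons_iff.mp hst with rfl | h'
    · exact h
    · exact ih h.tail h'

/-- uniqueness of potential claims -/
theorem claims_unique_aux {c : List (V F) → ℕ} (hc : Coding c) {g : V F} {m : ℕ} (hg : Abv m g)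
    {ζ1 ζ2 : V F} {t1 t2 : List (V F)} (h1 : Valid c (ζ1 :: t1)) (h2 : Valid c (ζ2 :: t2))
    {n1 n2 : ℕ} (hn1 : Fst ζ1 n1) (hn2 : Fst ζ2 n2) (hm1 : m ≤ n1) (hm2 : m ≤ n2)
    {x1 x2 : V F} (hx1 : Blw m x1) (hx2 : Blw m x2) (hc1 : Claims (ζ1 :: t1) (x1 + g))
    (hc2 : Claims (ζ2 :: t2) (x2 + g)) (hle : n1 ≤ n2) : ζ1 :: t1 = ζ2 :: t2 := by
  obtain ⟨b1, hb1, u1, hu1, hy1⟩ := hc1
  obtain ⟨b2, hb2, u2, hu2, hy2⟩ := hc2
  obtain ⟨a1, a2, a3⟩ := claims_tail h1.1 hn1 hu1 hy1
  obtain ⟨d1, d2, d3⟩ := claims_tail h2.1 hn2 hu2 hy2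
  have e1 : ∀ k, n1 ≤ k → g k = b1 * ζ1 k := by
    intro k hk
    have := a1 k hk
    rwa [Finsupp.add_apply, hx1 k (by omega), zero_add] at this
  have e2 : ∀ k, n2 ≤ k → g k = b2 * ζ2 k := by
    intro k hk
    have := d1 k hk
    rwa [Finsupp.add_apply, hx2 k (by omega), zero_add] at this
  rcases Nat.lt_or_ge n1 n2 with hlt | hge
  · exfalso
    have hcl : Clean c ζ1 := h1.2 ζ1 (List.mem_cons_self)
    rw [clean_iff] at hcl
    apply hcl
    refine ⟨ζ2 :: t2, h2, ζ2, t2, n1, n2, b1⁻¹ • (x2 + lw n1 g), rfl, hn2, hn1, hlt, ?_, ?_⟩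
    · exact ((hx2.mono hm1).add (blw_lw n1 g)).smul _
    · have hgz : g = lw n1 g + b1 • ζ1 := by
        ext k
        by_cases hk : k < n1
        · simp [lw_of_lt g hk, hn1.2 k hk]
        · push Not at hk
          simp [lw_of_le g hk, e1 k hk]
      have hz : ζ1 = b1⁻¹ • (b1 • ζ1) := by rw [smul_smul, inv_mul_cancel₀ hb1, one_smul]
      have hsum : b1⁻¹ • (x2 + lw n1 g) + ζ1 = b1⁻¹ • (x2 + g) := by
        rw [hz, ← smul_add, add_assoc, ← hgz]
      rw [hsum]
      refine ⟨b1⁻¹ * b2, mul_ne_zero (inv_ne_zero hb1) hb2, b1⁻¹ • u2,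
        Submodule.smul_mem _ _ hu2, ?_⟩
      rw [hy2, smul_add, smul_smul]
  · have hnn : n1 = n2 := le_antisymm hle hge
    subst hnn
    have hb : b1 = b2 := by
      have q1 := e1 n1 le_rfl
      have q2 := e2 n1 le_rfl
      rw [hn1.1, mul_one] at q1
      rw [hn2.1, mul_one] at q2
      rw [← q1, q2]
    have hζ : ζ1 = ζ2 := by
      ext k
      by_cases hk : k < n1
      · rw [hn1.2 k hk, hn2.2 k hk]
      · push Not at hk
        have := e1 k hk
        rw [e2 k hk, hb] at this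
        exact (mul_left_cancel₀ hb2 this).symm
    subst hζ
    obtain ⟨q1, hq1⟩ := h1.1.2.2
    obtain ⟨q2, hq2⟩ := h2.1.2.2
    rw [hq1] at hq2
    have := pow_odd_unique hq2
    rw [hc.inj this]

theorem claims_unique {c : List (V F) → ℕ} (hc : Coding c) {g : V F} {m : ℕ} (hg : Abv m g)
    {ζ1 ζ2 : V F} {t1 t2 : List (V F)} (h1 : Valid c (ζ1 :: t1)) (h2 : Valid c (ζ2 :: t2))
    {n1 n2 : ℕ} (hn1 : Fst ζ1 n1) (hn2 : Fst ζ2 n2) (hm1 : m ≤ n1) (hm2 : m ≤ n2)
    {x1 x2 : V F} (hx1 : Blw m x1) (hx2 : Blw m x2) (hc1 : Claims (ζ1 :: t1) (x1 + g))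
    (hc2 : Claims (ζ2 :: t2) (x2 + g)) : ζ1 :: t1 = ζ2 :: t2 := by
  rcases le_total n1 n2 with h | h
  · exact claims_unique_aux hc hg h1 h2 hn1 hn2 hm1 hm2 hx1 hx2 hc1 hc2 h
  · exact (claims_unique_aux hc hg h2 h1 hn2 hn1 hm2 hm1 hx2 hx1 hc2 hc1 h).symm

theorem claims_unique' {c : List (V F) → ℕ} (hc : Coding c) {y : V F} {s1 s2 : List (V F)}
    (h1 : Valid c s1) (h2 : Valid c s2) (hc1 : Claims s1 y) (hc2 : Claims s2 y) : s1 = s2 := by
  rcases s1 with _ | ⟨ζ1, t1⟩
  · exact absurd hc1 (by simp [Claims])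
  rcases s2 with _ | ⟨ζ2, t2⟩
  · exact absurd hc2 (by simp [Claims])
  obtain ⟨n1, hn1, _⟩ := h1.1.2.1
  obtain ⟨n2, hn2, _⟩ := h2.1.2.1
  exact claims_unique hc (m := 0) (g := y) (fun k hk => absurd hk (by omega)) h1 h2 hn1 hn2
    (Nat.zero_le _) (Nat.zero_le _) (blw_zero 0) (blw_zero 0) (by simpa using hc1)
    (by simpa using hc2)

/-- every nonzero vector of the span is claimed by a suffix -/
lemma exists_claims {y : V F} (hy0 : y ≠ 0) : ∀ s : List (V F),
    y ∈ Submodule.span F {w | w ∈ s} → ∃ t, t <:+ s ∧ Claims t y := by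
  intro s
  induction s with
  | nil =>
    intro h
    exfalso
    apply hy0
    simpa using h
  | cons ζ t ih =>
    intro h
    have hset : {w | w ∈ ζ :: t} = insert ζ {w | w ∈ t} := by ext w; simp
    rw [hset, Submodule.mem_span_insert] at h
    obtain ⟨b, u, hu, hy⟩ := h
    by_cases hb : b = 0
    · have : y ∈ Submodule.span F {w | w ∈ t} := by rw [hy, hb]; simpa using hu
      obtain ⟨t', h1, h2⟩ := ih this
      exact ⟨t', h1.trans (List.suffix_cons ζ t), h2⟩
    · exact ⟨ζ :: t, List.suffix_refl _, b, hb, u, hu, by rw [hy, add_comm]⟩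

lemma Claims.mem_span {y : V F} {s : List (V F)} (h : Claims s y) :
    y ∈ Submodule.span F {w | w ∈ s} := by
  rcases s with _ | ⟨ζ, t⟩
  · exact absurd h (by simp [Claims])
  · obtain ⟨b, hb, u, hu, rfl⟩ := h
    refine Submodule.add_mem _ (Submodule.span_mono ?_ hu) (Submodule.smul_mem _ _
      (Submodule.subset_span ?_))
    · intro w hw; exact List.mem_cons_of_mem _ hw
    · simp

end Coding

end Pool.Agent.MP5897b0
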