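import Mathlib
import Pool.Agent.MP_5897b0.PosB

namespace Pool.Agent.MP5897b0

section Main

variable {F : Type*} [Field F]

lemma span_cons_mono (ζ : V F) (t : List (V F)) :
    Submodule.span F {w | w ∈ t} ≤ Submodule.span F {w | w ∈ ζ :: t} :=
  Submodule.span_mono (fun _ hw => List.mem_cons_of_mem _ hw)

lemma mem_span_cons (ζ : V F) (t : List (V F)) :
    ζ ∈ Submodule.span F {w | w ∈ ζ :: t} := Submodule.subset_span (by simp)

lemma straddle {c : List (V F) → ℕ} : ∀ (s : List (V F)), Pre c s →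
    ∀ (y x d : V F) (n0 md : ℕ), y ∈ Submodule.span F {w | w ∈ s} → y n0 ≠ 0 → Blw n0 x →
      Abv md d → n0 < md → x + d ∈ Submodule.span F {w | w ∈ s} →
      d ∈ Submodule.span F {w | w ∈ s} := by
  intro s
  induction s with
  | nil =>
    intro _ y x d n0 md hy hy0
    exfalso
    apply hy0
    have : y = 0 := by simpa using hy
    rw [this]; rfl
  | cons ζ t ih =>
    intro hp y x d n0 md hy hy0 hx hd hlt hxd
    obtain ⟨n, hn, hbt⟩ := hp.2.1
    have hset : {w | w ∈ ζ :: t} = insert ζ {w | w ∈ t} := by ext w; simp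
    have hy' := hy
    have hxd' := hxd
    rw [hset, Submodule.mem_span_insert] at hy' hxd'
    obtain ⟨γ, u', hu', hy1⟩ := hy'
    obtain ⟨β, u, hu, hx1⟩ := hxd'
    have hub : Blw n u := blw_span hbt hu
    have hub' : Blw n u' := blw_span hbt hu'
    rcases Nat.lt_or_ge n0 n with h1 | h1
    · -- ζ starts after n0
      have hy2 : u' n0 ≠ 0 := by
        have := hy0
        rw [hy1] at this
        simpa [hn.2 n0 h1] using this
      rcases Nat.lt_or_ge n md with h2 | h2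
      · have hβ : β = 0 := by
          have h3 : (x + d) n = 0 := by simp [hx n (by omega), hd n h2]
          rw [hx1] at h3
          simpa [hn.1, hub n le_rfl] using h3
        have h4 : x + d ∈ Submodule.span F {w | w ∈ t} := by
          rw [hx1, hβ]; simpa using hu
        exact span_cons_mono ζ t (ih hp.1 u' x d n0 md hu' hy2 hx hd hlt h4)
      · have h4 : x + (d - β • ζ) ∈ Submodule.span F {w | w ∈ t} := by
          have : x + (d - β • ζ) = u := by
            rw [← add_sub_assoc, hx1]; abel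
          rw [this]; exact hu
        have h5 : Abv md (d - β • ζ) := by
          apply hd.sub
          apply Abv.smul
          intro k hk
          exact hn.2 k (by omega)
        have h6 := ih hp.1 u' x (d - β • ζ) n0 md hu' hy2 hx h5 hlt h4
        have h7 : d = (d - β • ζ) + β • ζ := by abel
        rw [h7]
        exact Submodule.add_mem _ (span_cons_mono ζ t h6)
          (Submodule.smul_mem _ _ (mem_span_cons ζ t))
    · -- n ≤ n0
      by_cases hβ : β = 0
      · have h3 : d = 0 := by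
          ext k
          rcases Nat.lt_or_ge k md with hk | hk
          · simpa using hd k hk
          · have h4 : (x + d) k = 0 := by
              rw [hx1, hβ]; simp [hub k (by omega)]
            simpa [hx k (by omega)] using h4
        rw [h3]; exact Submodule.zero_mem _
      · exfalso
        have h3 : ζ n0 ≠ 0 := by
          intro h4
          apply hy0
          rw [hy1]; simp [h4, hub' n0 h1]
        have h4 : (x + d) n0 = 0 := by simp [hx n0 le_rfl, hd n0 hlt]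
        rw [hx1] at h4
        simp [hub n0 h1, hβ, h3] at h4

lemma no_accident {c : List (V F) → ℕ} (hc : Coding c) {s : List (V F)} {m0 m1 n0 K q : ℕ}
    {z : V F} (hs : ∀ w ∈ s, Blw m0 w) (hm0 : m0 ≤ n0) (hz : Fst z n0) (hK : Odd K)
    (hmK : m1 < K) (hcK : c s < K) (hN : Nc z = 2 ^ (c s) + 2 ^ K * (2 * q + 1))
    {ζ : V F} {t : List (V F)} {n' : ℕ} {x : V F} (hv : Valid c (ζ :: t)) (hζ : Fst ζ n')
    (hn : n0 < n') (hx : Blw n0 x) (hcl : Claims (ζ :: t) (x + z)) : m1 ≤ n' := by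
  by_contra hcon
  push Not at hcon
  obtain ⟨b, hb, u, hu, hy⟩ := hcl
  obtain ⟨h1, h2, h3⟩ := claims_tail hv.1 hζ hu hy
  -- the largest support index below n'
  have hne : (z.support.filter (fun k => k < n')).Nonempty := by
    refine ⟨n0, ?_⟩
    simp [hn, hz.1]
  obtain ⟨p, hp, hmax⟩ : ∃ p, p ∈ z.support.filter (fun k => k < n') ∧
      ∀ k ∈ z.support.filter (fun k => k < n'), k ≤ p :=
    ⟨_, Finset.max'_mem _ hne, fun k hk => Finset.le_max' _ k hk⟩
  have hp1 : z p ≠ 0 := by simpa using (Finset.mem_filter.mp hp).1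
  have hp2 : p < n' := (Finset.mem_filter.mp hp).2
  have hp3 : n0 ≤ p := hmax n0 (by simp [hn, hz.1])
  have hup : u p ≠ 0 := by
    rw [← h2 p hp2, Finsupp.add_apply, hx p hp3, zero_add]; exact hp1
  obtain ⟨w, hw, hwp⟩ := exists_ne_of_span hu hup
  have hbig : p + 2 ≤ c t := hc.big t w hw p hwp
  set c0 := ((Ch z).filter (fun i => i < n')).card with hc0
  have hc0le : c0 ≤ p + 1 := by
    have : (Ch z).filter (fun i => i < n') ⊆ Finset.range (p + 1) := by
      intro i hi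
      rw [Finset.mem_filter] at hi
      have hzi : z i ≠ 0 := (mem_Ch.mp hi.1).1
      have := hmax i (by simp [hzi, hi.2])
      simp; omega
    simpa using Finset.card_le_card this
  have htl : tl n' z = b • ζ := by
    ext k
    rcases Nat.lt_or_ge k n' with hk | hk
    · rw [tl_of_lt z hk]; simp [hζ.2 k hk]
    · rw [tl_of_le z hk]
      have := h1 k hk
      rw [Finsupp.add_apply, hx k (by omega), zero_add] at this
      simpa using this
  obtain ⟨r, hr⟩ := hv.1.2.2
  have hsplit : Nc z = c0 + 2 ^ (c t) * (2 * r + 1) := by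
    rw [Nc_split n' z, htl, Nc_smul hb, hr]
  rw [hN] at hsplit
  obtain ⟨e1, e2⟩ := arith (c := c0) hK (hc.even t) hcK (by omega) (by omega) hsplit
  have : s = t := hc.inj e2
  subst this
  exact hwp (hs w hw p (by omega))

/-- two vectors with equal boundary data and equal number of changes -/
structure Sim (x y : V F) (p q : ℕ) : Prop where
  sx : Sh x p q
  sy : Sh y p q
  hp : x p = y p
  hq : x q = y q
  hN : Nc x = Nc y

lemma Sim.rfl' {x : V F} {p q : ℕ} (h : Sh x p q) : Sim x x p q := ⟨h, h, rfl, rfl, rfl⟩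

lemma Sim.add {x y x' y' : V F} {p q p' q' : ℕ} (h : Sim x y p q) (h' : Sim x' y' p' q')
    (hlt : q < p') : Sim (x + x') (y + y') p q' := by
  have h1 := h.sx.le
  have h2 := h'.sx.le
  refine ⟨h.sx.add h'.sx hlt, h.sy.add h'.sy hlt, ?_, ?_, ?_⟩
  · simp [h'.sx.2.2.1 p (by omega), h'.sy.2.2.1 p (by omega), h.hp]
  · simp [h.sx.2.2.2 q' (by omega), h.sy.2.2.2 q' (by omega), h'.hq]
  · rw [Nc_add h.sx h'.sx hlt, Nc_add h.sy h'.sy hlt, h.hN, h'.hN, h.hq, h'.hp]

lemma swap (hF : ∃ β : F, β ≠ 0 ∧ β ≠ 1) {a b d : V F} {pa qa pb qb pd qd : ℕ}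
    (ha : Sh a pa qa) (hb : Sh b pb qb) (hd : Sh d pd qd) (h1 : qa < pb) (h2 : qb < pd)
    {U : Submodule F (V F)} (haU : a ∈ U) (hbU : b ∈ U) (hdU : d ∈ U) :
    ∃ P P' : V F, Sim P P' pa qd ∧ P ∈ U ∧ P' ∈ U ∧ ∃ γ : F, γ ≠ 0 ∧ P - P' = γ • b := by
  obtain ⟨β, hβ0, hβ1⟩ := hF
  have hA0 : b pb / a qa ≠ 0 := div_ne_zero hb.1 ha.2.1
  have hC0 : β * b qb / d pd ≠ 0 := div_ne_zero (mul_ne_zero hβ0 hb.2.1) hd.1
  have sa : Sh ((b pb / a qa) • a) pa qa := ha.smul hA0
  have sd : Sh ((β * b qb / d pd) • d) pd qd := hd.smul hC0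
  have sβ : Sh (β • b) pb qb := hb.smul hβ0
  have hba := hb.le
  have hqa : ((b pb / a qa) • a) qa = b pb := by
    simp [ha.2.1]
  have hpd : ((β * b qb / d pd) • d) pd = β * b qb := by
    simp [hd.1]
  have s1 := sa.add hb h1
  have s2 := sa.add sβ h1
  refine ⟨(b pb / a qa) • a + b + (β * b qb / d pd) • d,
    (b pb / a qa) • a + β • b + (β * b qb / d pd) • d, ⟨s1.add sd h2, s2.add sd h2, ?_, ?_, ?_⟩,
    ?_, ?_, 1 - β, sub_ne_zero.mpr (Ne.symm hβ1), ?_⟩
  · have hal := ha.le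
    have hbl := hb.le
    simp [hb.2.2.1 pa (by omega)]
  · have hdl := hd.le
    simp [hb.2.2.2 qd (by omega)]
  · rw [Nc_add s1 sd h2, Nc_add s2 sd h2, Nc_add sa hb h1, Nc_add sa sβ h1, Nc_smul hβ0, hqa, hpd]
    have e1 : ((b pb / a qa) • a + b) qb = b qb := by
      simp [ha.2.2.2 qb (by omega)]
    have e2 : ((b pb / a qa) • a + β • b) qb = β * b qb := by
      simp [ha.2.2.2 qb (by omega)]
    have e3 : (β • b) pb = β * b pb := by simp
    rw [e1, e2, e3]
    have n1 : ¬ (b qb = β * b qb) := by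
      intro h
      have : (1 - β) * b qb = 0 := by rw [sub_mul, one_mul, ← h, sub_self]
      rcases mul_eq_zero.mp this with h' | h'
      · exact hβ1 (sub_eq_zero.mp h').symm
      · exact hb.2.1 h'
    have n2 : ¬ (b pb = β * b pb) := by
      intro h
      have : (1 - β) * b pb = 0 := by rw [sub_mul, one_mul, ← h, sub_self]
      rcases mul_eq_zero.mp this with h' | h'
      · exact hβ1 (sub_eq_zero.mp h').symm
      · exact hb.1 h'
    simp only [n1, n2, if_true, if_false]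
    ring
  · exact U.add_mem (U.add_mem (U.smul_mem _ haU) hbU) (U.smul_mem _ hdU)
  · exact U.add_mem (U.add_mem (U.smul_mem _ haU) (U.smul_mem _ hbU)) (U.smul_mem _ hdU)
  · rw [sub_smul, one_smul]; abel

lemma adjust (hF : ∃ β : F, β ≠ 0 ∧ β ≠ 1) {U : Submodule F (V F)} {g : ℕ → V F}
    {p q : ℕ → ℕ} (hgU : ∀ i, g i ∈ U) (hsh : ∀ i, Sh (g i) (p i) (q i))
    (hlt : ∀ i, q i < p (i + 1)) {v : V F} {pv qv : ℕ} (hv : Sh v pv qv) {k : ℕ}
    (hk : qv < p k) : ∀ n j, j ≤ n → ∃ w ∈ U, Abv (p k) w ∧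
      (∃ q', Sh (v + w) pv q' ∧ q' < p (k + n) ∧ (n ≠ 0 → p k ≤ q')) ∧
      Nc (v + w) = Nc v + (∑ i ∈ Finset.range n, Nc (g (k + i))) + j := by
  obtain ⟨β, hβ0, hβ1⟩ := hF
  intro n
  induction n with
  | zero =>
    intro j hj
    refine ⟨0, U.zero_mem, fun _ _ => rfl, ⟨qv, by simpa using hv, by simpa using hk, by simp⟩, ?_⟩
    simp; omega
  | succ n ih =>
    intro j hj
    have main : ∀ j', j' ≤ n → ∀ e : ℕ, e ≤ 1 → ∃ w ∈ U, Abv (p k) w ∧
      (∃ q', Sh (v + w) pv q' ∧ q' < p (k + (n+1)) ∧ (n+1 ≠ 0 → p k ≤ q')) ∧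
      Nc (v + w) = Nc v + (∑ i ∈ Finset.range (n+1), Nc (g (k + i))) + (j' + e) := by
      intro j' hj' e he
      obtain ⟨w, hwU, hw1, ⟨q', hq1, hq2, hq3⟩, hN⟩ := ih j' hj'
      have hg := hsh (k + n)
      have hgl := hg.le
      have hpk : p k ≤ p (k + n) := by
        clear * - hlt hsh
        induction n with
        | zero => simp
        | succ n ih' =>
          have h1 := hlt (k + n)
          have h2 := (hsh (k + n)).le
          have : k + (n + 1) = k + n + 1 := by ring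
          rw [this]; omega
      set A := (v + w) q' / g (k + n) (p (k + n)) with hA
      have hA0 : A ≠ 0 := div_ne_zero hq1.2.1 hg.1
      have hAg : A * g (k + n) (p (k + n)) = (v + w) q' := by
        rw [hA, div_mul_cancel₀ _ hg.1]
      have key : ∀ l : F, l ≠ 0 → ∃ w ∈ U, Abv (p k) w ∧
        (∃ q', Sh (v + w) pv q' ∧ q' < p (k + (n+1)) ∧ (n+1 ≠ 0 → p k ≤ q')) ∧
        ∃ e', (l = 1 → e' = 0) ∧ (l ≠ 1 → e' = 1) ∧
        Nc (v + w) = Nc v + (∑ i ∈ Finset.range (n+1), Nc (g (k + i))) + (j' + e') := by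
        intro l hl
        have hlA : l * A ≠ 0 := mul_ne_zero hl hA0
        have hs2 := hg.smul hlA
        refine ⟨w + (l * A) • g (k + n), U.add_mem hwU (U.smul_mem _ (hgU _)), ?_, ?_, ?_⟩
        · exact hw1.add ((hg.abv hpk).smul _)
        · refine ⟨q (k + n), ?_, ?_, ?_⟩
          · rw [← add_assoc]; exact hq1.add hs2 hq2
          · have := hlt (k + n)
            rw [show k + (n + 1) = k + n + 1 by ring]; exact this
          · intro _; omega
        · have hNN := Nc_add hq1 hs2 hq2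
          rw [← add_assoc, hNN, hN, Nc_smul hlA, Finset.sum_range_succ]
          have hval : ((l * A) • g (k + n)) (p (k + n)) = l * (v + w) q' := by
            simp only [Finsupp.smul_apply, smul_eq_mul]
            rw [mul_assoc, hAg]
          rw [hval]
          by_cases h1 : l = 1
          · refine ⟨0, fun _ => rfl, fun h => absurd h1 h, ?_⟩
            simp only [h1, one_mul, if_true]; ring
          · have h2 : ¬ ((v + w) q' = l * (v + w) q') := by
              intro h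
              have : (1 - l) * (v + w) q' = 0 := by rw [sub_mul, one_mul, ← h, sub_self]
              rcases mul_eq_zero.mp this with h' | h'
              · exact h1 (sub_eq_zero.mp h').symm
              · exact hq1.2.1 h'
            refine ⟨1, fun h => absurd h h1, fun _ => rfl, ?_⟩
            simp only [h2, if_false]; ring
      rcases Nat.eq_zero_or_pos e with he0 | he0
      · obtain ⟨w', a1, a2, a3, e', b1, _, b3⟩ := key 1 one_ne_zero
        refine ⟨w', a1, a2, a3, ?_⟩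
        rw [b3, b1 rfl, he0]
      · obtain ⟨w', a1, a2, a3, e', _, b2, b3⟩ := key β hβ0
        refine ⟨w', a1, a2, a3, ?_⟩
        rw [b3, b2 hβ1]
        have : e = 1 := by omega
        rw [this]
    rcases Nat.lt_or_ge j (n + 1) with h | h
    · have := main j (by omega) 0 (by omega)
      simpa using this
    · have := main n le_rfl 1 le_rfl
      have hj' : j = n + 1 := by omega
      rw [hj']; exact this

lemma adjust_target (hF : ∃ β : F, β ≠ 0 ∧ β ≠ 1) {U : Submodule F (V F)} {g : ℕ → V F}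
    {p q : ℕ → ℕ} (hgU : ∀ i, g i ∈ U) (hsh : ∀ i, Sh (g i) (p i) (q i))
    (hlt : ∀ i, q i < p (i + 1)) {v : V F} {pv qv : ℕ} (hv : Sh v pv qv) {k : ℕ}
    (hk : qv < p k) (a K : ℕ) : ∃ w ∈ U, Abv (p k) w ∧ w ≠ 0 ∧
      ∃ r, Nc (v + w) = 2 ^ a + 2 ^ K * (2 * r + 1) := by
  set n := 2 ^ a + 2 ^ K + 2 ^ (K + 1) with hn
  set B := Nc v + ∑ i ∈ Finset.range n, Nc (g (k + i)) with hB
  have hpos : 0 < 2 ^ (K + 1) := by positivity
  have hmod := Nat.div_add_mod B (2 ^ (K + 1))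
  have hlt' := Nat.mod_lt B hpos
  set r0 := B / 2 ^ (K + 1) with hr0
  set r1 := B % 2 ^ (K + 1) with hr1
  obtain ⟨w, h1, h2, ⟨q', h3, h4, h5⟩, h6⟩ := adjust hF hgU hsh hlt hv hk n (n - r1) (Nat.sub_le _ _)
  have hn0 : n ≠ 0 := by positivity
  refine ⟨w, h1, h2, ?_, r0 + 1, ?_⟩
  · rintro rfl
    have := h5 hn0
    have h7 := h3.2.1
    rw [add_zero] at h7
    exact h7 (hv.2.2.2 q' (by omega))
  · have e1 : 2 ^ K * (2 * (r0 + 1) + 1) = 2 ^ (K + 1) * r0 + 2 ^ (K + 1) + 2 ^ K := by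
      rw [pow_succ]; ring
    rw [h6, ← hB, e1]
    have hap : 0 < 2 ^ a := by positivity
    have hKp : 0 < 2 ^ K := by positivity
    clear_value r0 r1 n
    generalize 2 ^ (K + 1) * r0 = X at hmod ⊢
    omega

theorem coherent_pair {c : List (V F) → ℕ} (hc : Coding c) (hF : ∃ β : F, β ≠ 0 ∧ β ≠ 1)
    {U : Submodule F (V F)} {g : ℕ → V F} {p q : ℕ → ℕ} (hgU : ∀ i, g i ∈ U)
    (hsh : ∀ i, Sh (g i) (p i) (q i)) (hlt : ∀ i, q i < p (i + 1)) {s : List (V F)}
    (hs : Valid c s) {m0 : ℕ} (hsb : ∀ w ∈ s, Blw m0 w) {i j : ℕ} (hi0 : m0 ≤ p (3 * i))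
    (hno : ∀ z ∈ U, ∀ n, Fst z n → m0 ≤ n → ¬ Valid c (z :: s)) (hij : i < j) :
    ∃ σ, Valid c σ ∧ g (3 * i + 1) ∈ Submodule.span F {w | w ∈ σ} ∧
      g (3 * j + 1) ∈ Submodule.span F {w | w ∈ σ} := by
  have hpmono : ∀ a b, a < b → q a < p b := by
    intro a b hab
    induction b with
    | zero => omega
    | succ b ih =>
      rcases Nat.lt_or_ge a b with h | h
      · have h1 := ih h
        have h2 := (hsh b).le
        have h3 := hlt b
        omega
      · have : a = b := by omega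
        rw [this]; exact hlt b
  obtain ⟨P, P', hP, hPU, hPU', γ, hγ, hPd⟩ := swap hF (hsh (3 * i)) (hsh (3 * i + 1))
    (hsh (3 * i + 2)) (hlt _) (hlt _) (hgU _) (hgU _) (hgU _)
  obtain ⟨Q, Q', hQ, hQU, hQU', δ, hδ, hQd⟩ := swap hF (hsh (3 * j)) (hsh (3 * j + 1))
    (hsh (3 * j + 2)) (hlt _) (hlt _) (hgU _) (hgU _) (hgU _)
  have hPQ : q (3 * i + 2) < p (3 * j) := hpmono _ _ (by omega)
  have S1 : Sim (P + Q) (P' + Q) (p (3 * i)) (q (3 * j + 2)) := hP.add (Sim.rfl' hQ.sx) hPQ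
  have S2 : Sim (P + Q) (P + Q') (p (3 * i)) (q (3 * j + 2)) := (Sim.rfl' hP.sx).add hQ hPQ
  set v := P + Q with hv
  set n0 := p (3 * i) with hn0
  set m1 := p (3 * j + 3) with hm1
  set a := c s with ha
  set K := 2 * (m1 + a) + 1 with hK
  have hKodd : Odd K := ⟨m1 + a, rfl⟩
  obtain ⟨w, hwU, hwA, hw0, r, hNr⟩ := adjust_target hF hgU hsh hlt S1.sx (k := 3 * j + 3)
    (hlt _) a K
  obtain ⟨pw, qw, hwS⟩ := exists_sh hw0
  have hpw : m1 ≤ pw := by
    by_contra hcon
    exact hwS.1 (hwA pw (by omega))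
  have hq3 : q (3 * j + 2) < m1 := hlt _
  have hn0m1 : n0 < m1 := by
    have := S1.sx.le
    omega
  -- the general step
  have step : ∀ y : V F, Sim v y n0 (q (3 * j + 2)) → y ∈ U → ∃ ζ t n' x,
      Valid c (ζ :: t) ∧ Fst ζ n' ∧ m1 ≤ n' ∧ Blw n0 x ∧ Claims (ζ :: t) ((x + y) + w) := by
    intro y hy hyU
    have hS : Sim (v + w) (y + w) n0 qw := hy.add (Sim.rfl' hwS) (by omega)
    set z := y + w with hz
    have hzn : z n0 ≠ 0 := hS.sy.1
    have hNz : Nc z = 2 ^ a + 2 ^ K * (2 * r + 1) := by rw [← hS.hN, hNr]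
    have hF1 : Fst ((z n0)⁻¹ • z) n0 := by
      refine ⟨by simp [hzn], fun k hk => ?_⟩
      simp [hS.sy.2.2.1 k hk]
    have hN1 : Nc ((z n0)⁻¹ • z) = 2 ^ a + 2 ^ K * (2 * r + 1) := by
      rw [Nc_smul (inv_ne_zero hzn), hNz]
    have hzU : (z n0)⁻¹ • z ∈ U := U.smul_mem _ (U.add_mem hyU hwU)
    have hnv := hno _ hzU n0 hF1 hi0
    have hpre : Pre c (((z n0)⁻¹ • z) :: s) := by
      refine ⟨hs.1, ⟨n0, hF1, fun w hw => (hsb w hw).mono hi0⟩, ?_⟩
      refine ⟨2 ^ (K - a - 1) * (2 * r + 1), ?_⟩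
      rw [hN1]
      have hKa : K = a + 1 + (K - a - 1) := by omega
      have : 2 ^ K = 2 ^ a * (2 * 2 ^ (K - a - 1)) := by
        conv_lhs => rw [hKa]
        rw [pow_add, pow_succ]; ring
      rw [this]; ring
    have hnc : ¬ Clean c ((z n0)⁻¹ • z) := by
      intro hcl
      apply hnv
      refine ⟨hpre, fun w hw => ?_⟩
      rcases List.mem_cons.mp hw with rfl | hw
      · exact hcl
      · exact hs.2 w hw
    rw [clean_iff, not_not] at hnc
    obtain ⟨s2, hs2, ζ, t, n, n', x, rfl, hζ, hzz, hnn, hx, hcl⟩ := hnc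
    have hnn0 : n = n0 := hzz.unique hF1
    subst hnn0
    have hm1n' : m1 ≤ n' := no_accident hc hsb hi0 hF1 hKodd (by omega) (by omega) hN1 hs2 hζ hnn hx hcl
    refine ⟨ζ, t, n', z n0 • x, hs2, hζ, hm1n', hx.smul _, ?_⟩
    obtain ⟨b, hb, u, hu, hy2⟩ := hcl
    refine ⟨z n0 * b, mul_ne_zero hzn hb, z n0 • u, Submodule.smul_mem _ _ hu, ?_⟩
    have : z n0 • (x + (z n0)⁻¹ • z) = z n0 • x + z := by
      rw [smul_add, smul_smul, mul_inv_cancel₀ hzn, one_smul]
    rw [add_assoc, ← hz, ← this, hy2, smul_add, smul_smul]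
  obtain ⟨ζ, t, n', x, hval, hζ, hn', hx, hcl⟩ := step v (Sim.rfl' S1.sx)
    (U.add_mem hPU hQU)
  have same : ∀ y : V F, Sim v y n0 (q (3 * j + 2)) → y ∈ U → ∃ x', Blw n0 x' ∧
      Claims (ζ :: t) ((x' + y) + w) := by
    intro y hy hyU
    obtain ⟨ζ2, t2, n2, x2, hval2, hζ2, hn2, hx2, hcl2⟩ := step y hy hyU
    have heq : ζ :: t = ζ2 :: t2 := by
      refine claims_unique hc (g := w) (m := m1) hwA hval hval2 hζ hζ2 hn' hn2 ?_ ?_ hcl hcl2
      · exact (hx.mono hn0m1.le).add (S1.sx.blw hq3)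
      · exact (hx2.mono hn0m1.le).add (hy.sy.blw hq3)
    exact ⟨x2, hx2, heq ▸ hcl2⟩
  have hyn0 : ((x + v) + w) n0 ≠ 0 := by
    have h1 : v n0 ≠ 0 := S1.sx.1
    simpa [hx n0 le_rfl, hwA n0 hn0m1] using h1
  have hmem := hcl.mem_span
  refine ⟨ζ :: t, hval, ?_, ?_⟩
  · obtain ⟨x', hx', hcl'⟩ := same (P' + Q) S1 (U.add_mem hPU' hQU)
    have h1 := Submodule.sub_mem _ hmem hcl'.mem_span
    have h2 : (x + v) + w - ((x' + (P' + Q)) + w) = (x - x') + γ • g (3 * i + 1) := by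
      rw [← hPd, hv]; abel
    rw [h2] at h1
    have h3 := straddle (ζ :: t) hval.1 _ _ _ n0 (p (3 * i + 1)) hmem hyn0 (hx.sub hx')
      (((hsh (3 * i + 1)).abv le_rfl).smul γ) (by
        have := hlt (3 * i); have := (hsh (3 * i)).le; omega) h1
    have h4 := Submodule.smul_mem _ γ⁻¹ h3
    rwa [smul_smul, inv_mul_cancel₀ hγ, one_smul] at h4
  · obtain ⟨x', hx', hcl'⟩ := same (P + Q') S2 (U.add_mem hPU hQU')
    have h1 := Submodule.sub_mem _ hmem hcl'.mem_span
    have h2 : (x + v) + w - ((x' + (P + Q')) + w) = (x - x') + δ • g (3 * j + 1) := by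
      rw [← hQd, hv]; abel
    rw [h2] at h1
    have h3 := straddle (ζ :: t) hval.1 _ _ _ n0 (p (3 * j + 1)) hmem hyn0 (hx.sub hx')
      (((hsh (3 * j + 1)).abv le_rfl).smul δ) (by
        have := hpmono (3 * i) (3 * j + 1) (by omega); have := (hsh (3 * i)).le; omega) h1
    have h4 := Submodule.smul_mem _ δ⁻¹ h3
    rwa [smul_smul, inv_mul_cancel₀ hδ, one_smul] at h4

end Main

end Pool.Agent.MP5897b0
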