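import Mathlib
import Pool.Agent.MP_5897b0.PosC
import Pool.Agent.MP_5897b0.Defs

namespace Pool.Agent.MP5897b0

section Branches

variable {F : Type*} [Field F]

/-- first `n` terms, newest first -/
def ini {α : Type*} (b : ℕ → α) : ℕ → List α
  | 0 => []
  | n + 1 => b n :: ini b n

lemma mem_ini {α : Type*} {b : ℕ → α} {n : ℕ} {w : α} : w ∈ ini b n ↔ ∃ i < n, w = b i := by
  induction n with
  | zero => simp [ini]
  | succ n ih =>
    simp only [ini, List.mem_cons, ih]
    constructor
    · rintro (h | ⟨i, hi, h⟩)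
      · exact ⟨n, by omega, h⟩
      · exact ⟨i, by omega, h⟩
    · rintro ⟨i, hi, h⟩
      rcases Nat.lt_or_ge i n with h' | h'
      · exact Or.inr ⟨i, h', h⟩
      · have : i = n := by omega
        subst this; exact Or.inl h

lemma ini_length {α : Type*} (b : ℕ → α) (n : ℕ) : (ini b n).length = n := by
  induction n with
  | zero => rfl
  | succ n ih => simp [ini, ih]

lemma ini_congr {α : Type*} {b b' : ℕ → α} {n : ℕ} (h : ∀ i < n, b i = b' i) :
    ini b n = ini b' n := by
  induction n with
  | zero => rfl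
  | succ n ih =>
    simp only [ini]
    rw [h n (by omega), ih (fun i hi => h i (by omega))]

lemma ini_inj {α : Type*} {b b' : ℕ → α} {n : ℕ} (h : ini b n = ini b' n) : ∀ i < n, b i = b' i := by
  induction n with
  | zero => intro i hi; omega
  | succ n ih =>
    simp only [ini, List.cons.injEq] at h
    intro i hi
    rcases Nat.lt_or_ge i n with h' | h'
    · exact ih h.2 i h'
    · have : i = n := by omega
      subst this; exact h.1

lemma suffix_ini {α : Type*} {b : ℕ → α} {N : ℕ} {t : List α} (h : t <:+ ini b N) :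
    ∃ k ≤ N, t = ini b k := by
  induction N with
  | zero =>
    simp only [ini, List.suffix_nil] at h
    exact ⟨0, le_rfl, by rw [h]; rfl⟩
  | succ N ih =>
    rcases List.suffix_cons_iff.mp h with h' | h'
    · exact ⟨N + 1, le_rfl, h'⟩
    · obtain ⟨k, hk, hk'⟩ := ih h'
      exact ⟨k, by omega, hk'⟩

/-- infinite branches of the tree of valid sequences -/
def IsBr (c : List (V F) → ℕ) (b : ℕ → V F) : Prop := ∀ n, Valid c (ini b n)

/-- the span of a sequence -/
noncomputable def sp (b : ℕ → V F) : Submodule F (V F) := Submodule.span F (Set.range b)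

lemma span_ini_le (b : ℕ → V F) (n : ℕ) : Submodule.span F {w | w ∈ ini b n} ≤ sp b := by
  apply Submodule.span_mono
  intro w hw
  obtain ⟨i, _, rfl⟩ := mem_ini.mp hw
  exact ⟨i, rfl⟩

lemma mem_sp_iff {b : ℕ → V F} {y : V F} : y ∈ sp b ↔ ∃ n, y ∈ Submodule.span F {w | w ∈ ini b n} := by
  constructor
  · intro h
    induction h using Submodule.span_induction with
    | mem x hx =>
      obtain ⟨i, rfl⟩ := hx
      exact ⟨i + 1, Submodule.subset_span (mem_ini.mpr ⟨i, by omega, rfl⟩)⟩
    | zero => exact ⟨0, Submodule.zero_mem _⟩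
    | add x y _ _ hx hy =>
      obtain ⟨n, hn⟩ := hx
      obtain ⟨m, hm⟩ := hy
      have mono : ∀ {k l : ℕ}, k ≤ l → Submodule.span F {w | w ∈ ini b k} ≤
          Submodule.span F {w | w ∈ ini b l} := by
        intro k l hkl
        apply Submodule.span_mono
        intro w hw
        obtain ⟨i, hi, rfl⟩ := mem_ini.mp hw
        exact mem_ini.mpr ⟨i, by omega, rfl⟩
      exact ⟨max n m, Submodule.add_mem _ (mono (le_max_left _ _) hn) (mono (le_max_right _ _) hm)⟩
    | smul a x _ hx =>
      obtain ⟨n, hn⟩ := hx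
      exact ⟨n, Submodule.smul_mem _ _ hn⟩
  · rintro ⟨n, hn⟩
    exact span_ini_le b n hn

lemma IsBr.fst {c : List (V F) → ℕ} {b : ℕ → V F} (hb : IsBr c b) : ∀ n, ∃ m, Fst (b n) m ∧
    n ≤ m ∧ ∀ i < n, Blw m (b i) := by
  have h0 : ∀ n, ∃ m, Fst (b n) m ∧ ∀ i < n, Blw m (b i) := by
    intro n
    obtain ⟨m, hm, h2⟩ := (hb (n + 1)).1.2.1
    exact ⟨m, hm, fun i hi => h2 _ (mem_ini.mpr ⟨i, hi, rfl⟩)⟩
  intro n
  induction n with
  | zero =>
    obtain ⟨m, hm, h2⟩ := h0 0
    exact ⟨m, hm, Nat.zero_le _, h2⟩
  | succ n ih =>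
    obtain ⟨m, hm, h2⟩ := h0 (n + 1)
    obtain ⟨m', hm', h3, _⟩ := ih
    refine ⟨m, hm, ?_, h2⟩
    by_contra hcon
    have := h2 n (by omega) m' (by omega)
    rw [hm'.1] at this
    exact one_ne_zero this

lemma exists_claims_ini {b : ℕ → V F} {y : V F} (hy : y ∈ sp b)
    (hy0 : y ≠ 0) : ∃ n, Claims (ini b (n + 1)) y := by
  obtain ⟨N, hN⟩ := mem_sp_iff.mp hy
  obtain ⟨t, ht, hcl⟩ := exists_claims hy0 _ hN
  obtain ⟨k, _, rfl⟩ := suffix_ini ht
  rcases k with _ | k
  · exact absurd hcl (by simp [ini, Claims])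
  · exact ⟨k, hcl⟩

lemma IsBr.claims_lt {c : List (V F) → ℕ} {b : ℕ → V F} (hb : IsBr c b) {y : V F} {n N : ℕ}
    (hcl : Claims (ini b (n + 1)) y) (hN : Blw N y) : n < N := by
  obtain ⟨m, hm, hnm, _⟩ := hb.fst n
  obtain ⟨β, hβ, u, hu, hy⟩ := hcl
  obtain ⟨h1, _, _⟩ := claims_tail (hb (n + 1)).1 hm hu hy
  by_contra hcon
  have h2 := h1 m le_rfl
  rw [hN m (by omega), hm.1, mul_one] at h2
  exact hβ h2.symm

/-- membership of a vector in the span of a branch is decided by an initial part -/
lemma IsBr.mem_iff {c : List (V F) → ℕ} {b : ℕ → V F} (hb : IsBr c b) {y : V F} {N : ℕ}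
    (hN : Blw N y) : y ∈ sp b ↔ y ∈ Submodule.span F {w | w ∈ ini b N} := by
  constructor
  · intro hy
    by_cases hy0 : y = 0
    · rw [hy0]; exact Submodule.zero_mem _
    · obtain ⟨n, hn⟩ := exists_claims_ini hy hy0
      have hlt := hb.claims_lt hn hN
      refine Submodule.span_mono ?_ hn.mem_span
      intro w hw
      obtain ⟨i, hi, rfl⟩ := mem_ini.mp hw
      exact mem_ini.mpr ⟨i, by omega, rfl⟩
  · exact fun h => span_ini_le b N h

lemma not_finite_iff {U : Submodule F (V F)} :
    ¬ FiniteDimensional F U ↔ ∀ n, ∃ u ∈ U, u ≠ 0 ∧ Abv n u := by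
  constructor
  · intro h n
    by_contra hcon
    push Not at hcon
    apply h
    let φ : U →ₗ[F] (Fin n → F) :=
      (LinearMap.pi fun i : Fin n => Finsupp.lapply (i : ℕ)).domRestrict U
    have hinj : Function.Injective φ := by
      rw [injective_iff_map_eq_zero]
      intro u hu
      by_contra hne
      apply hcon u u.2 (by simpa using hne)
      intro k hk
      have := congrFun hu ⟨k, hk⟩
      simpa [φ] using this
    exact FiniteDimensional.of_injective φ hinj
  · intro h hfin
    obtain ⟨S, hS⟩ : U.FG := (Submodule.fg_iff_finiteDimensional U).mpr hfin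
    have hbound : ∃ N, ∀ x ∈ S, Blw N x := by
      clear hS
      classical
      induction S using Finset.induction_on with
      | empty => exact ⟨0, by simp⟩
      | insert a T _ ih =>
        obtain ⟨N, hN⟩ := ih
        refine ⟨max N (a.support.sup id + 1), ?_⟩
        intro x hx
        rcases Finset.mem_insert.mp hx with rfl | hx
        · intro k hk
          by_contra hc
          have : k ≤ x.support.sup id := Finset.le_sup (f := id) (Finsupp.mem_support_iff.mpr hc)
          omega
        · exact (hN x hx).mono (le_max_left _ _)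
    obtain ⟨N, hN⟩ := hbound
    obtain ⟨u, hu, hu0, huN⟩ := h N
    rw [← hS] at hu
    have hub : Blw N u := blw_span (fun w hw => hN w hw) hu
    apply hu0
    ext k
    rcases Nat.lt_or_ge k N with hk | hk
    · simpa using huN k hk
    · simpa using hub k hk

lemma IsBr.infinite {c : List (V F) → ℕ} {b : ℕ → V F} (hb : IsBr c b) :
    ¬ FiniteDimensional F (sp b) := by
  rw [not_finite_iff]
  intro n
  obtain ⟨m, hm, hnm, _⟩ := hb.fst n
  refine ⟨b n, Submodule.subset_span ⟨n, rfl⟩, ?_, ?_⟩
  · intro h0
    have := hm.1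
    rw [h0] at this
    simp at this
  · intro k hk
    exact hm.2 k (by omega)

lemma IsBr.ad {c : List (V F) → ℕ} (hc : Coding c) {b b' : ℕ → V F} (hb : IsBr c b)
    (hb' : IsBr c b') (hne : b ≠ b') :
    FiniteDimensional F (sp b ⊓ sp b' : Submodule F (V F)) := by
  obtain ⟨k, hk⟩ : ∃ k, b k ≠ b' k := by
    by_contra hcon
    push Not at hcon
    exact hne (funext hcon)
  have hle : sp b ⊓ sp b' ≤ Submodule.span F {w | w ∈ ini b k} := by
    intro y hy
    by_cases hy0 : y = 0
    · rw [hy0]; exact Submodule.zero_mem _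
    obtain ⟨n, hn⟩ := exists_claims_ini hy.1 hy0
    obtain ⟨n', hn'⟩ := exists_claims_ini hy.2 hy0
    have heq := claims_unique' hc (hb (n + 1)) (hb' (n' + 1)) hn hn'
    have hlen : n = n' := by
      have := congrArg List.length heq
      simpa [ini_length] using this
    subst hlen
    have hall := ini_inj heq
    have hnk : n < k := by
      by_contra hcon
      exact hk (hall k (by omega))
    refine Submodule.span_mono ?_ hn.mem_span
    intro w hw
    obtain ⟨i, hi, rfl⟩ := mem_ini.mp hw
    exact mem_ini.mpr ⟨i, by omega, rfl⟩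
  have hfin : FiniteDimensional F (Submodule.span F {w | w ∈ ini b k}) := by
    apply FiniteDimensional.span_of_finite
    exact List.finite_toSet _
  exact Submodule.finiteDimensional_of_le hle

lemma exists_block {U : Submodule F (V F)} (hU : ∀ n, ∃ u ∈ U, u ≠ 0 ∧ Abv n u) :
    ∃ (g : ℕ → V F) (p q : ℕ → ℕ), (∀ i, g i ∈ U) ∧ (∀ i, Sh (g i) (p i) (q i)) ∧
      ∀ i, q i < p (i + 1) := by
  choose u hu1 hu2 hu3 using hU
  choose p q hpq using fun n => exists_sh (hu2 n)
  let m : ℕ → ℕ := fun i => Nat.rec 0 (fun _ r => q r + 1) i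
  have hm : ∀ i, m (i + 1) = q (m i) + 1 := fun i => rfl
  refine ⟨fun i => u (m i), fun i => p (m i), fun i => q (m i), fun i => hu1 _, fun i => hpq _,
    fun i => ?_⟩
  have h1 : m (i + 1) ≤ p (m (i + 1)) := by
    by_contra hcon
    exact (hpq (m (i + 1))).1 (hu3 (m (i + 1)) _ (by omega))
  rw [hm i] at h1
  show q (m i) < p (m (i + 1))
  rw [hm i]
  omega

lemma branch_of_chain {α : Type*} (P : List α → Prop) (hex : ∀ n, ∃ τ, P τ ∧ τ.length = n)
    (htail : ∀ a τ, P (a :: τ) → P τ)
    (huniq : ∀ τ τ', P τ → P τ' → τ.length = τ'.length → τ = τ') :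
    ∃ b : ℕ → α, ∀ n, P (ini b n) := by
  choose τ hτ hl using hex
  have hcons : ∀ n, ∃ a, τ (n + 1) = a :: τ n := by
    intro n
    rcases h : τ (n + 1) with _ | ⟨a, t⟩
    · have := hl (n + 1); rw [h] at this; simp at this
    · refine ⟨a, ?_⟩
      have h1 : P t := htail a t (h ▸ hτ (n + 1))
      have h2 : t.length = n := by
        have := hl (n + 1); rw [h] at this; simpa using this
      rw [huniq t (τ n) h1 (hτ n) (by rw [h2, hl])]
  choose b hb using hcons
  refine ⟨b, fun n => ?_⟩
  have : ∀ n, ini b n = τ n := by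
    intro n
    induction n with
    | zero =>
      have := hl 0
      rw [List.length_eq_zero_iff] at this
      rw [this]; rfl
    | succ n ih => rw [hb n, ← ih]; rfl
  rw [this n]; exact hτ n

/-- the main dichotomy -/
theorem dich {c : List (V F) → ℕ} (hc : Coding c) (hF : ∃ β : F, β ≠ 0 ∧ β ≠ 1)
    {U : Submodule F (V F)} {g : ℕ → V F} {p q : ℕ → ℕ} (hgU : ∀ i, g i ∈ U)
    (hsh : ∀ i, Sh (g i) (p i) (q i)) (hlt : ∀ i, q i < p (i + 1)) :
    (∃ b, IsBr c b ∧ ∀ n, b n ∈ U) ∨
      (∃ b, IsBr c b ∧ ∃ i0, ∀ i, i0 ≤ i → g (3 * i + 1) ∈ sp b) := by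
  have hpn : ∀ n, n ≤ p n := by
    intro n
    induction n with
    | zero => exact Nat.zero_le _
    | succ n ih =>
      have := hlt n
      have := (hsh n).le
      omega
  have hpmono : ∀ a b, a < b → q a < p b := by
    intro a b hab
    induction b with
    | zero => omega
    | succ b ih =>
      rcases Nat.lt_or_ge a b with h | h
      · have h1 := ih h
        have h2 := (hsh b).le
        have h3 := hlt b
        omega
      · have : a = b := by omega
        rw [this]; exact hlt b
  by_cases hext : ∀ s : List (V F), (Valid c s ∧ ∀ w ∈ s, w ∈ U) →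
      ∃ z, Valid c (z :: s) ∧ ∀ w ∈ z :: s, w ∈ U
  · left
    choose! z hz using hext
    let S : ℕ → List (V F) := fun n => Nat.rec [] (fun _ r => z r :: r) n
    have hS : ∀ n, Valid c (S n) ∧ ∀ w ∈ S n, w ∈ U := by
      intro n
      induction n with
      | zero => exact ⟨⟨trivial, by intro w hw; exact absurd hw (List.not_mem_nil)⟩,
          by intro w hw; exact absurd hw (List.not_mem_nil)⟩
      | succ n ih => exact hz _ ih
    have hini : ∀ n, ini (fun n => z (S n)) n = S n := by
      intro n
      induction n with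
      | zero => rfl
      | succ n ih => simp only [ini]; rw [ih]
    refine ⟨fun n => z (S n), fun n => by rw [hini n]; exact (hS n).1, fun n => ?_⟩
    exact (hz (S n) (hS n)).2 _ (List.mem_cons_self)
  · right
    push Not at hext
    obtain ⟨s, ⟨hs, hsU⟩, hno⟩ := hext
    obtain ⟨m0, hm0⟩ := exists_bound s
    have hsb : ∀ w ∈ s, Blw m0 w := by
      intro w hw k hk
      by_contra hc
      have := hm0 w hw k hc
      omega
    have hno' : ∀ z ∈ U, ∀ n, Fst z n → m0 ≤ n → ¬ Valid c (z :: s) := by
      intro z hz n _ _ hv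
      obtain ⟨w, hw, hwU⟩ := hno z hv
      rcases List.mem_cons.mp hw with rfl | hw
      · exact hwU hz
      · exact hwU (hsU w hw)
    have hcoh : ∀ i j, i < j → ∃ σ, Valid c σ ∧
        g (3 * (i + m0) + 1) ∈ Submodule.span F {w | w ∈ σ} ∧
        g (3 * (j + m0) + 1) ∈ Submodule.span F {w | w ∈ σ} := by
      intro i j hij
      refine coherent_pair hc hF hgU hsh hlt hs hsb ?_ hno' (by omega)
      have := hpn (3 * (i + m0))
      omega
    have hW : ∀ i, ∃ W : List (V F), Valid c W ∧ Claims W (g (3 * (i + m0) + 1)) := by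
      intro i
      obtain ⟨σ, hσ, h1, _⟩ := hcoh i (i + 1) (by omega)
      obtain ⟨t, ht, hcl⟩ := exists_claims (hsh _).ne_zero σ h1
      exact ⟨t, hσ.suffix ht, hcl⟩
    choose W hW1 hW2 using hW
    have hmono : ∀ i j, i < j → W i <:+ W j ∧ W i ≠ W j := by
      intro i j hij
      obtain ⟨σ, hσ, h1, h2⟩ := hcoh i j hij
      have hsi : W i <:+ σ := by
        obtain ⟨t, ht, hcl⟩ := exists_claims (hsh _).ne_zero σ h1
        rw [claims_unique' hc (hW1 i) (hσ.suffix ht) (hW2 i) hcl]; exact ht
      have hsj : W j <:+ σ := by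
        obtain ⟨t, ht, hcl⟩ := exists_claims (hsh _).ne_zero σ h2
        rw [claims_unique' hc (hW1 j) (hσ.suffix ht) (hW2 j) hcl]; exact ht
      have hnot : ¬ W j <:+ W i := by
        intro hji
        have hbl : ∀ w ∈ W i, Blw (q (3 * (i + m0) + 1) + 1) w := by
          have hv := hW1 i
          have hcl := hW2 i
          rcases hWi : W i with _ | ⟨ζ, t⟩
          · rw [hWi] at hcl; exact absurd hcl (by simp [Claims])
          · rw [hWi] at hv hcl
            obtain ⟨n, hn, hbt⟩ := hv.1.2.1
            obtain ⟨β, hβ, u, hu, hy⟩ := hcl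
            obtain ⟨e1, _, _⟩ := claims_tail hv.1 hn hu hy
            have hsq := hsh (3 * (i + m0) + 1)
            have hnq : n < q (3 * (i + m0) + 1) + 1 := by
              by_contra hcon
              have := e1 n le_rfl
              rw [hn.1, mul_one, hsq.2.2.2 n (by omega)] at this
              exact hβ this.symm
            intro w hw
            rcases List.mem_cons.mp hw with rfl | hw
            · intro k hk
              have := e1 k (by omega)
              rw [hsq.2.2.2 k (by omega)] at this
              rcases mul_eq_zero.mp this.symm with h | h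
              · exact absurd h hβ
              · exact h
            · exact (hbt w hw).mono (by omega)
        have hyj : g (3 * (j + m0) + 1) ∈ Submodule.span F {w | w ∈ W i} := by
          refine Submodule.span_mono ?_ (hW2 j).mem_span
          intro w hw
          exact hji.subset hw
        have h3 := blw_span hbl hyj
        have h4 := hsh (3 * (j + m0) + 1)
        exact h4.1 (h3 _ (hpmono _ _ (by omega)))
      rcases List.suffix_or_suffix_of_suffix hsi hsj with h | h
      · exact ⟨h, fun heq => hnot (heq ▸ List.suffix_refl _)⟩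
      · exact absurd h hnot
    have hmono' : ∀ i j, i ≤ j → W i <:+ W j := by
      intro i j hij
      rcases Nat.lt_or_ge i j with h | h
      · exact (hmono i j h).1
      · have : i = j := by omega
        rw [this]
    have hlen : ∀ i, i ≤ (W i).length := by
      intro i
      induction i with
      | zero => exact Nat.zero_le _
      | succ i ih =>
        obtain ⟨h1, h2⟩ := hmono i (i + 1) (by omega)
        have h3 := h1.length_le
        have h4 : (W i).length ≠ (W (i + 1)).length := fun h => h2 (h1.eq_of_length h)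
        omega
    have huniq : ∀ τ τ' : List (V F), (∃ i, τ <:+ W i) → (∃ i, τ' <:+ W i) →
        τ.length = τ'.length → τ = τ' := by
      rintro τ τ' ⟨i, hi⟩ ⟨j, hj⟩ hl
      have h1 : τ <:+ W (max i j) := hi.trans (hmono' _ _ (le_max_left _ _))
      have h2 : τ' <:+ W (max i j) := hj.trans (hmono' _ _ (le_max_right _ _))
      exact (List.suffix_of_suffix_length_le h1 h2 hl.le).eq_of_length hl
    obtain ⟨b, hb⟩ := branch_of_chain (fun τ => ∃ i, τ <:+ W i) (by
        intro n
        refine ⟨(W n).drop ((W n).length - n), ⟨n, List.drop_suffix _ _⟩, ?_⟩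
        have := hlen n
        rw [List.length_drop]; omega) (by
        rintro a τ ⟨i, hi⟩
        exact ⟨i, (List.suffix_cons a τ).trans hi⟩) huniq
    refine ⟨b, fun n => ?_, m0, fun i hi => ?_⟩
    · obtain ⟨i, hi⟩ := hb n
      exact (hW1 i).suffix hi
    · obtain ⟨i', rfl⟩ := Nat.exists_eq_add_of_le' hi
      have h1 : W i' = ini b (W i').length :=
        huniq _ _ ⟨i', List.suffix_refl _⟩ (hb _) (by rw [ini_length])
      have h2 := (hW2 i').mem_span
      rw [h1] at h2
      exact span_ini_le b _ h2

end Branches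

end Pool.Agent.MP5897b0
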