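import Mathlib
import Pool.Agent.MP_5897b0.PosD

namespace Pool.Agent.MP5897b0

section Force

variable {S : Type*} (U : List S → Ultrafilter S)

/-- an assignment of large sets to nodes -/
def Asg (A : List S → Set S) : Prop := ∀ t, A t ∈ U t

/-- `x` follows `A` from time `n` on -/
def Fol (A : List S → Set S) (n : ℕ) (x : ℕ → S) : Prop := ∀ m, n ≤ m → x m ∈ A (ini x m)

/-- all branches through `t` that follow some assignment satisfy `Q` -/
def Frc (Q : (ℕ → S) → Prop) (t : List S) : Prop :=
  ∃ A, Asg U A ∧ ∀ x, ini x t.length = t → Fol A t.length x → Q x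

lemma Fol.mono {A : List S → Set S} {n m : ℕ} {x : ℕ → S} (h : Fol A n x) (hnm : n ≤ m) :
    Fol A m x := fun k hk => h k (hnm.trans hk)

lemma ini_suffix (x : ℕ → S) {n m : ℕ} (h : n ≤ m) : ini x n <:+ ini x m := by
  obtain ⟨d, rfl⟩ := Nat.exists_eq_add_of_le h
  induction d with
  | zero => exact List.suffix_refl _
  | succ d ih => exact (ih (by omega)).trans (List.suffix_cons _ _)

lemma ini_drop (x : ℕ → S) {n m : ℕ} (h : n ≤ m) : (ini x m).drop (m - n) = ini x n := by
  have h1 : (ini x m).drop (m - n) <:+ ini x m := List.drop_suffix _ _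
  have h2 := ini_suffix x h
  have h3 : ((ini x m).drop (m - n)).length = (ini x n).length := by
    rw [List.length_drop, ini_length, ini_length]; omega
  exact (List.suffix_of_suffix_length_le h1 h2 h3.le).eq_of_length h3

variable {U}

lemma Frc.mono {Q Q' : (ℕ → S) → Prop} {t : List S} (h : Frc U Q t)
    (hQ : ∀ x, ini x t.length = t → Q x → Q' x) : Frc U Q' t := by
  obtain ⟨A, hA, h⟩ := h
  exact ⟨A, hA, fun x hx hf => hQ x hx (h x hx hf)⟩

lemma frc_of_forall {Q : (ℕ → S) → Prop} {t : List S} (hQ : ∀ x, ini x t.length = t → Q x) :
    Frc U Q t := ⟨fun _ => Set.univ, fun _ => Filter.univ_mem, fun x hx _ => hQ x hx⟩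

open Classical in
lemma frc_combine {Q : (ℕ → S) → Prop} {t : List S} (h : {a | Frc U Q (a :: t)} ∈ U t) :
    Frc U Q t := by
  let B : S → List S → Set S := fun a => if h : Frc U Q (a :: t) then h.choose else fun _ => Set.univ
  have hB : ∀ a, Asg U (B a) := by
    intro a
    by_cases h : Frc U Q (a :: t)
    · simp only [B, dif_pos h]; exact h.choose_spec.1
    · simp only [B, dif_neg h]; exact fun _ => Filter.univ_mem
  refine ⟨fun t' => if t' = t then {a | Frc U Q (a :: t)} else
    {y | ∀ a, (a :: t) <:+ t' → y ∈ B a t'}, ?_, ?_⟩
  · intro t'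
    by_cases ht : t' = t
    · simp only [ht, if_true]; exact h
    · simp only [ht, if_false]
      by_cases hex : ∃ a, (a :: t) <:+ t'
      · obtain ⟨a, ha⟩ := hex
        refine Filter.mem_of_superset (hB a t') ?_
        intro y hy a' ha'
        have : a' :: t = a :: t :=
          (List.suffix_of_suffix_length_le ha' ha (by simp)).eq_of_length (by simp)
        have : a' = a := by simpa using this
        rw [this]; exact hy
      · push Not at hex
        have : {y | ∀ a, (a :: t) <:+ t' → y ∈ B a t'} = Set.univ := by
          ext y; simp only [Set.mem_ofPred_eq, Set.mem_univ, iff_true]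
          intro a ha; exact absurd ha (hex a)
        rw [this]; exact Filter.univ_mem
  · intro x hx hf
    have h0 := hf t.length le_rfl
    rw [hx] at h0
    simp only [if_true, Set.mem_ofPred_eq] at h0
    have hx1 : ini x (x t.length :: t).length = x t.length :: t := by
      simp only [List.length_cons, ini, hx]
    have hspec := h0.choose_spec
    have hBe : B (x t.length) = h0.choose := by simp only [B, dif_pos h0]
    rw [← hBe] at hspec
    refine hspec.2 x hx1 ?_
    intro m hm
    have h1 := hf m (by simp at hm; omega)
    have hne : ini x m ≠ t := by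
      intro he
      have := congrArg List.length he
      rw [ini_length] at this
      simp at hm; omega
    simp only [hne, if_false, Set.mem_ofPred_eq] at h1
    apply h1
    rw [← hx1]
    exact ini_suffix x hm

open Classical in
lemma frc_fusion {Q : ℕ → (ℕ → S) → Prop} {t : List S} {A0 : List S → Set S} (hA0 : Asg U A0)
    (h : ∀ x, ini x t.length = t → Fol A0 t.length x → ∀ n, t.length ≤ n → ∀ k,
      Frc U (Q k) (ini x n)) : Frc U (fun x => ∀ k, Q k x) t := by
  let B : List S → ℕ → List S → Set S := fun t' k =>
    if h : Frc U (Q k) t' then h.choose else fun _ => Set.univ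
  have hB : ∀ t' k, Asg U (B t' k) := by
    intro t' k
    by_cases h : Frc U (Q k) t'
    · simp only [B, dif_pos h]; exact h.choose_spec.1
    · simp only [B, dif_neg h]; exact fun _ => Filter.univ_mem
  refine ⟨fun t' => A0 t' ∩ {y | ∀ j ∈ Finset.range (t'.length + 1),
    ∀ k ∈ Finset.range (t'.length + 1), y ∈ B (t'.drop j) k t'}, ?_, ?_⟩
  · intro t'
    refine Filter.inter_mem (hA0 t') ?_
    show ∀ᶠ y in (U t' : Filter S), ∀ j ∈ Finset.range (t'.length + 1),
      ∀ k ∈ Finset.range (t'.length + 1), y ∈ B (t'.drop j) k t'
    rw [Filter.eventually_all_finset]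
    intro j _
    rw [Filter.eventually_all_finset]
    intro k _
    exact hB _ _ t'
  · intro x hx hf k
    have hf0 : Fol A0 t.length x := fun m hm => (hf m hm).1
    set n := max t.length k with hn
    have hfr := h x hx hf0 n (le_max_left _ _) k
    have hspec := hfr.choose_spec
    have hBe : B (ini x n) k = hfr.choose := by simp only [B, dif_pos hfr]
    rw [← hBe] at hspec
    refine hspec.2 x (by rw [ini_length]) ?_
    intro m hm
    rw [ini_length] at hm
    have h1 := (hf m (by omega)).2
    simp only [Set.mem_ofPred_eq, ini_length, Finset.mem_range] at h1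
    have h2 := h1 (m - n) (by omega) k (by omega)
    rwa [ini_drop x hm] at h2

/-- the branch will meet `G` strictly later -/
def Hit (U : List S → Ultrafilter S) (G : List S → Prop) (t : List S) : Prop :=
  Frc U (fun x => ∃ n, t.length < n ∧ G (ini x n)) t

lemma hit_of_mem {G : List S → Prop} {t : List S}
    (h : {a | G (a :: t) ∨ Hit U G (a :: t)} ∈ U t) : Hit U G t := by
  apply frc_combine
  refine Filter.mem_of_superset h ?_
  rintro a (ha | ha)
  · apply frc_of_forall
    intro x hx
    refine ⟨(a :: t).length, by simp, ?_⟩
    rw [hx]; exact ha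
  · refine Frc.mono ha ?_
    rintro x _ ⟨n, hn, hG⟩
    exact ⟨n, by simp at hn; omega, hG⟩

open Classical in
lemma avoid_of_not_hit {G : List S → Prop} {t : List S} (h : ¬ Hit U G t) :
    ∃ A0, Asg U A0 ∧ ∀ x, ini x t.length = t → Fol A0 t.length x → ∀ n, t.length < n →
      ¬ G (ini x n) := by
  have key : ∀ t', ¬ Hit U G t' → {a | ¬ G (a :: t') ∧ ¬ Hit U G (a :: t')} ∈ U t' := by
    intro t' ht'
    by_contra hcon
    apply ht'
    apply hit_of_mem
    rw [← Ultrafilter.compl_mem_iff_notMem] at hcon
    refine Filter.mem_of_superset hcon ?_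
    intro a ha
    simp only [Set.mem_compl_iff, Set.mem_ofPred_eq] at ha ⊢
    tauto
  refine ⟨fun t' => if ¬ Hit U G t' then {a | ¬ G (a :: t') ∧ ¬ Hit U G (a :: t')} else Set.univ,
    ?_, ?_⟩
  · intro t'
    by_cases ht : Hit U G t'
    · simp only [ht, not_true_eq_false, if_false]; exact Filter.univ_mem
    · simp only [ht, not_false_eq_true, if_true]; exact key t' ht
  · intro x hx hf
    have hall : ∀ d, ¬ Hit U G (ini x (t.length + d)) ∧ (0 < d → ¬ G (ini x (t.length + d))) := by
      intro d
      induction d with
      | zero => 
        refine ⟨?_, by omega⟩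
        rw [add_zero, hx]; exact h
      | succ d ih =>
        have h1 := hf (t.length + d) (by omega)
        simp only [ih.1, not_false_eq_true, if_true, Set.mem_ofPred_eq] at h1
        have h2 : ini x (t.length + (d + 1)) = x (t.length + d) :: ini x (t.length + d) := rfl
        rw [h2]
        exact ⟨h1.2, fun _ => h1.1⟩
    intro n hn
    obtain ⟨d, rfl⟩ := Nat.exists_eq_add_of_le hn.le
    exact (hall d).2 (by omega)

/-- no witness extending `σ` -/
def Nw (C : (ℕ → S) → (ℕ → ℕ) → Prop) (σ : List ℕ) (x : ℕ → S) : Prop :=
  ∀ y, ini y σ.length = σ → ¬ C x y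

/-- good moments for prolonging `σ` -/
def Gd (U : List S → Ultrafilter S) (C : (ℕ → S) → (ℕ → ℕ) → Prop) (σ : List ℕ)
    (t : List S) : Prop := ∃ k, ¬ Frc U (Nw C (k :: σ)) t

lemma hit_of_not_frc {C : (ℕ → S) → (ℕ → ℕ) → Prop} {σ : List ℕ} {t : List S}
    (h : ¬ Frc U (Nw C σ) t) : Hit U (Gd U C σ) t := by
  by_contra hcon
  apply h
  obtain ⟨A0, hA0, hav⟩ := avoid_of_not_hit hcon
  apply frc_combine
  refine Filter.mem_of_superset (hA0 t) ?_
  intro a ha
  have hfus : Frc U (fun x => ∀ k, Nw C (k :: σ) x ∧ True) (a :: t) := by
    refine frc_fusion (Q := fun k x => Nw C (k :: σ) x ∧ True) hA0 ?_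
    intro x hx hf n hn k
    have hxt : ini x t.length = t := by
      have h1 : x t.length :: ini x t.length = a :: t := hx
      exact (List.cons.inj h1).2
    have hxa : x t.length = a := by
      have h1 : x t.length :: ini x t.length = a :: t := hx
      exact (List.cons.inj h1).1
    have hf' : Fol A0 t.length x := by
      intro m hm
      rcases Nat.lt_or_ge t.length m with h1 | h1
      · exact hf m (by simp; omega)
      · have : m = t.length := by omega
        subst this
        rw [hxt, hxa]; exact ha
    have h2 := hav x hxt hf' n (by simp at hn; omega)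
    unfold Gd at h2
    push Not at h2
    exact (h2 k).mono (fun x _ h => ⟨h, trivial⟩)
  refine hfus.mono ?_
  intro x _ hx y hy hC
  refine (hx (y σ.length)).1 y ?_ hC
  simp only [List.length_cons, ini, hy]

open Classical in
/-- the witnessing assignment -/
noncomputable def wit (U : List S → Ultrafilter S) (C : (ℕ → S) → (ℕ → ℕ) → Prop) (σ : List ℕ)
    (t : List S) : List S → Set S :=
  if h : Hit U (Gd U C σ) t then h.choose else fun _ => Set.univ

lemma wit_asg (C : (ℕ → S) → (ℕ → ℕ) → Prop) (σ : List ℕ) (t : List S) : Asg U (wit U C σ t) := by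
  unfold wit
  by_cases h : Hit U (Gd U C σ) t
  · rw [dif_pos h]; exact h.choose_spec.1
  · rw [dif_neg h]; exact fun _ => Filter.univ_mem

open Classical in
/-- state along a node -/
noncomputable def stt (U : List S → Ultrafilter S) (C : (ℕ → S) → (ℕ → ℕ) → Prop) :
    List S → List ℕ × (List S → Set S)
  | [] => ([], wit U C [] [])
  | a :: t => if h : Gd U C (stt U C t).1 (a :: t) then
      (h.choose :: (stt U C t).1, wit U C (h.choose :: (stt U C t).1) (a :: t)) else stt U C t

theorem dichotomy (U : List S → Ultrafilter S) (C : (ℕ → S) → (ℕ → ℕ) → Prop)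
    (hC : ∀ x y, ¬ C x y → ∃ n, ∀ x' y', (∀ i < n, x' i = x i) → (∀ i < n, y' i = y i) →
      ¬ C x' y') :
    Frc U (fun x => ∃ y, C x y) [] ∨ Frc U (fun x => ¬ ∃ y, C x y) [] := by
  classical
  by_cases h0 : Frc U (Nw C []) []
  · right
    refine h0.mono ?_
    rintro x _ hx ⟨y, hy⟩
    exact hx y rfl hy
  · left
    refine ⟨fun t => (stt U C t).2 t, ?_, ?_⟩
    · intro t
      have : Asg U (stt U C t).2 := by
        induction t with
        | nil => exact wit_asg C _ _
        | cons a t ih =>
          rw [stt]
          by_cases h : Gd U C (stt U C t).1 (a :: t)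
          · rw [dif_pos h]; exact wit_asg C _ _
          · rw [dif_neg h]; exact ih
      exact this t
    · intro x _ hf
      -- switching times
      let Sw : ℕ → Prop := fun n => ¬ Frc U (Nw C (stt U C (ini x n)).1) (ini x n) ∧
        (stt U C (ini x n)).2 = wit U C (stt U C (ini x n)).1 (ini x n)
      have hSw0 : Sw 0 := ⟨h0, rfl⟩
      have hnext : ∀ n, Sw n → ∃ m, n < m ∧ Sw m ∧ ∃ k,
          (stt U C (ini x m)).1 = k :: (stt U C (ini x n)).1 := by
        intro n hn
        have hhit := hit_of_not_frc hn.1
        by_cases hex : ∃ m, n < m ∧ Gd U C (stt U C (ini x n)).1 (ini x m)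
        · let m := Nat.find hex
          have hm := Nat.find_spec hex
          have hmin : ∀ m', m' < m → ¬ (n < m' ∧ Gd U C (stt U C (ini x n)).1 (ini x m')) :=
            fun m' h => Nat.find_min hex h
          have hconst : ∀ d, n + d < m → stt U C (ini x (n + d)) = stt U C (ini x n) := by
            intro d
            induction d with
            | zero => intro _; rfl
            | succ d ih =>
              intro hd
              have h1 := ih (by omega)
              have h2 : ini x (n + (d + 1)) = x (n + d) :: ini x (n + d) := rfl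
              have h3 := hmin (n + (d + 1)) hd
              have h4 : ¬ Gd U C (stt U C (ini x n)).1 (ini x (n + (d + 1))) :=
                fun h => h3 ⟨by omega, h⟩
              rw [h2] at h4 ⊢
              rw [stt, h1, dif_neg h4]
          obtain ⟨d, hd⟩ := Nat.exists_eq_add_of_lt hm.1
          have hmd : m = n + d + 1 := hd
          have h1 := hconst d (by omega)
          have h2 : ini x m = x (n + d) :: ini x (n + d) := by rw [hmd]; rfl
          have hG : Gd U C (stt U C (ini x (n + d))).1 (x (n + d) :: ini x (n + d)) := by
            rw [h1, ← h2]; exact hm.2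
          have h5 : stt U C (ini x m) = (hG.choose :: (stt U C (ini x (n + d))).1,
              wit U C (hG.choose :: (stt U C (ini x (n + d))).1) (ini x m)) := by
            conv_lhs => rw [h2, stt]
            rw [dif_pos hG, h2]
          have hspec := hG.choose_spec
          generalize hG.choose = κ at h5 hspec
          rw [← h2] at hspec
          refine ⟨m, hm.1, ⟨?_, ?_⟩, κ, ?_⟩
          · rw [h5]; exact hspec
          · rw [h5]
          · rw [h5, h1]
        · exfalso
          push Not at hex
          have hconst : ∀ d, stt U C (ini x (n + d)) = stt U C (ini x n) := by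
            intro d
            induction d with
            | zero => rfl
            | succ d ih =>
              have h2 : ini x (n + (d + 1)) = x (n + d) :: ini x (n + d) := rfl
              have h4 : ¬ Gd U C (stt U C (ini x n)).1 (ini x (n + (d + 1))) :=
                hex _ (by omega)
              rw [h2] at h4 ⊢
              rw [stt, ih, dif_neg h4]
          have hw : wit U C (stt U C (ini x n)).1 (ini x n) = hhit.choose := by
            unfold wit; rw [dif_pos hhit]
          have hsp := hhit.choose_spec.2 x (by rw [ini_length]) (by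
            intro m hm
            rw [ini_length] at hm
            obtain ⟨d, rfl⟩ := Nat.exists_eq_add_of_le hm
            have h1 : x (n + d) ∈ (stt U C (ini x (n + d))).2 (ini x (n + d)) :=
              hf (n + d) (Nat.zero_le _)
            rw [hconst d, hn.2, hw] at h1
            exact h1)
          obtain ⟨m, hm, hG⟩ := hsp
          rw [ini_length] at hm
          exact hex m hm hG
      choose! nx hnx using hnext
      let T : ℕ → ℕ := fun i => Nat.rec 0 (fun _ r => nx r) i
      have hT : ∀ i, Sw (T i) := by
        intro i
        induction i with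
        | zero => exact hSw0
        | succ i ih => exact (hnx _ ih).2.1
      have hTge : ∀ i, i ≤ T i := by
        intro i
        induction i with
        | zero => exact Nat.zero_le _
        | succ i ih =>
          have : T i < T (i + 1) := (hnx _ (hT i)).1
          omega
      have hk : ∀ i, ∃ k, (stt U C (ini x (T (i + 1)))).1 = k :: (stt U C (ini x (T i))).1 :=
        fun i => (hnx _ (hT i)).2.2
      choose y hy using hk
      have hini : ∀ i, ini y i = (stt U C (ini x (T i))).1 := by
        intro i
        induction i with
        | zero => rfl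
        | succ i ih => rw [hy i, ← ih]; rfl
      refine ⟨y, ?_⟩
      by_contra hcon
      obtain ⟨n, hn⟩ := hC x y hcon
      have h1 := (hT n).1
      have h2 : ∃ x', ini x' (T n) = ini x (T n) ∧ ¬ Nw C (ini y n) x' := by
        by_contra hc
        push Not at hc
        apply h1
        apply frc_of_forall
        intro x' hx'
        rw [ini_length] at hx'
        rw [← hini n]
        exact hc x' hx'
      obtain ⟨x', hx', hN⟩ := h2
      unfold Nw at hN
      push Not at hN
      obtain ⟨y', hy', hCy⟩ := hN
      rw [ini_length] at hy'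
      refine hn x' y' ?_ ?_ hCy
      · intro i hi
        have := hTge n
        exact ini_inj hx' i (by omega)
      · intro i hi
        exact ini_inj hy' i hi

end Force

end Pool.Agent.MP5897b0
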