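import Mathlib

namespace Pool.Agent.MP5897b0

section Ultra

open Filter

/-- concatenation of lists as a semigroup -/
@[reducible] def listSemigroup : Semigroup (List ℕ) where
  mul a b := a ++ b
  mul_assoc a b c := List.append_assoc a b c

attribute [local instance] listSemigroup Ultrafilter.semigroup Ultrafilter.mul

/-- the property of far out odd length lists -/
def OddFar (k : ℕ) (α : List ℕ) : Prop := (∀ x ∈ α, k ≤ x) ∧ Odd α.length

lemma list_mul (a b : List ℕ) : a * b = a ++ b := rfl

theorem exists_uf : ∃ (W : Ultrafilter ℕ) (V : Ultrafilter (List ℕ)),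
    (∀ k, ∀ᶠ m in (W : Filter ℕ), k ≤ m) ∧
    (∀ k, ∀ᶠ α in (V : Filter (List ℕ)), OddFar k α) ∧
    ∀ A : List ℕ → Prop, (∀ᶠ α in (V : Filter (List ℕ)), A α) →
      ∀ᶠ α in (V : Filter (List ℕ)), ∀ᶠ m in (W : Filter ℕ), ∀ᶠ α' in (V : Filter (List ℕ)),
        A (α ++ [m] ++ α') := by
  set W : Ultrafilter ℕ := hyperfilter ℕ with hW
  have hWk : ∀ k, ∀ᶠ m in (W : Filter ℕ), k ≤ m := fun k =>
    (eventually_ge_atTop k).filter_mono Nat.hyperfilter_le_atTop
  set W' : Ultrafilter (List ℕ) := W.map (fun m => [m]) with hW'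
  have hW'ev : ∀ p : List ℕ → Prop, (∀ᶠ α in (W' : Filter (List ℕ)), p α) ↔
      ∀ᶠ m in (W : Filter ℕ), p [m] := fun p => Iff.rfl
  let M : Set (Ultrafilter (List ℕ)) := {X | ∀ k, ∀ᶠ α in (X : Filter (List ℕ)), OddFar k α}
  have hM1 : IsCompact M := by
    have : IsClosed M := by
      have : M = ⋂ k : ℕ, {X : Ultrafilter (List ℕ) | {α | OddFar k α} ∈ X} := by
        ext X; simp [M, Filter.Eventually]
      rw [this]
      exact isClosed_iInter (fun k => ultrafilter_isClosed_basic _)
    exact this.isCompact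
  have hM2 : W' ∈ M := by
    intro k
    rw [hW'ev]
    filter_upwards [hWk k] with m hm
    exact ⟨by simpa using hm, by simp⟩
  have hM3 : ∀ X ∈ M, ∀ X' ∈ M, X * W' * X' ∈ M := by
    intro X hX X' hX' k
    rw [Ultrafilter.eventually_mul, Ultrafilter.eventually_mul]
    filter_upwards [hX k] with α hα
    filter_upwards [(hM2 k : ∀ᶠ α in (W' : Filter (List ℕ)), OddFar k α)] with β hβ
    filter_upwards [hX' k] with γ hγ
    rw [list_mul, list_mul]
    refine ⟨?_, ?_⟩
    · intro x hx
      rcases List.mem_append.mp hx with hx | hx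
      · rcases List.mem_append.mp hx with hx | hx
        · exact hα.1 x hx
        · exact hβ.1 x hx
      · exact hγ.1 x hx
    · rw [List.length_append, List.length_append]
      exact (hα.2.add_odd hβ.2).add_odd hγ.2
  obtain ⟨E, hE, hEE⟩ := exists_idempotent_in_compact_subsemigroup
    (M := Ultrafilter (List ℕ)) Ultrafilter.continuous_mul_left ((fun X => X * W') '' M)
    ⟨_, W', hM2, rfl⟩ (hM1.image (Ultrafilter.continuous_mul_left W')) (by
      rintro _ ⟨X, hX, rfl⟩ _ ⟨X', hX', rfl⟩
      exact ⟨X * W' * X', hM3 X hX X' hX', by simp only [mul_assoc]⟩)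
  obtain ⟨X, hX, hXE⟩ := hE
  have hXE' : X * W' = E := hXE
  refine ⟨W, E * X, hWk, ?_, ?_⟩
  · have : E * X ∈ M := by rw [← hXE']; exact hM3 X hX X hX
    exact this
  · have key : E * X = (E * X) * (W' * (E * X)) := by
      have h1 : (E * X) * (W' * (E * X)) = E * (X * W') * (E * X) := by simp only [mul_assoc]
      rw [h1, hXE', hEE, ← mul_assoc, hEE]
    intro A hA
    rw [key, Ultrafilter.eventually_mul] at hA
    filter_upwards [hA] with α hα
    rw [Ultrafilter.eventually_mul, hW'ev] at hα
    filter_upwards [hα] with m hm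
    filter_upwards [hm] with α' hα'
    rw [List.append_assoc]
    exact hα'

end Ultra

end Pool.Agent.MP5897b0
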