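import Mathlib
import Pool.Agent.MP_5897b0.PosD

namespace Pool.Agent.MP5897b0

section Final

variable {F : Type*} [Field F]

/-- the coded family -/
def Fam (c : List (V F) → ℕ) : Set (Submodule F (V F)) := {Y | ∃ b, IsBr c b ∧ Y = sp b}

lemma fam_ad {c : List (V F) → ℕ} (hc : Coding c) : IsADFamily F (Fam c) := by
  refine ⟨?_, ?_⟩
  · rintro Y ⟨b, hb, rfl⟩
    exact hb.infinite
  · rintro X ⟨b, hb, rfl⟩ Y ⟨b', hb', rfl⟩ hne
    exact hb.ad hc hb' (fun h => hne (by rw [h]))

lemma fam_mad {c : List (V F) → ℕ} (hc : Coding c) (hF : ∃ β : F, β ≠ 0 ∧ β ≠ 1) :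
    IsMadFamily F (Fam c) := by
  refine ⟨fam_ad hc, fun B hB hAB => ?_⟩
  apply Set.Subset.antisymm _ hAB
  intro Y hY
  by_contra hYA
  obtain ⟨g, p, q, hg, hsh, hlt⟩ := exists_block (not_finite_iff.mp (hB.1 Y hY))
  have key : ∃ b, IsBr c b ∧ ¬ FiniteDimensional F (sp b ⊓ Y : Submodule F (V F)) := by
    rcases dich hc hF hg hsh hlt with ⟨b, hb, hbU⟩ | ⟨b, hb, i0, hi0⟩
    · refine ⟨b, hb, ?_⟩
      have hle : sp b ≤ Y := by
        apply Submodule.span_le.mpr
        rintro w ⟨i, rfl⟩
        exact hbU i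
      rw [inf_eq_left.mpr hle]
      exact hb.infinite
    · refine ⟨b, hb, ?_⟩
      rw [not_finite_iff]
      intro n
      have hpn : ∀ n, n ≤ p n := by
        intro n
        induction n with
        | zero => exact Nat.zero_le _
        | succ n ih =>
          have := hlt n
          have := (hsh n).le
          omega
      have hs := hsh (3 * (n + i0) + 1)
      refine ⟨g (3 * (n + i0) + 1), ⟨hi0 _ (by omega), hg _⟩, hs.ne_zero, hs.abv ?_⟩
      have := hpn (3 * (n + i0) + 1)
      omega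
  obtain ⟨b, hb, hinf⟩ := key
  have hbA : sp b ∈ Fam c := ⟨b, hb, rfl⟩
  apply hinf
  refine hB.2 _ (hAB hbA) Y hY ?_
  rintro rfl
  exact hYA hbA

/-- a branch never spans a basis vector -/
lemma single_not_mem {c : List (V F) → ℕ} {b : ℕ → V F} (hb : IsBr c b) (a : ℕ) :
    Finsupp.single a (1 : F) ∉ sp b := by
  intro h
  have h0 : Finsupp.single a (1 : F) ≠ 0 := by simp
  obtain ⟨n, β, hβ, u, hu, hy⟩ := exists_claims_ini h h0
  obtain ⟨m, hm, _, _⟩ := hb.fst n
  obtain ⟨e1, _, _⟩ := claims_tail (hb (n + 1)).1 hm hu hy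
  have hma : m = a := by
    by_contra hne
    have := e1 m le_rfl
    rw [hm.1, mul_one, Finsupp.single_eq_of_ne hne] at this
    exact hβ this.symm
  have hz : ∀ k, k ≠ m → b n k = 0 := by
    intro k hk
    rcases Nat.lt_or_ge k m with h1 | h1
    · exact hm.2 k h1
    · have := e1 k h1
      rw [Finsupp.single_eq_of_ne (by rw [← hma]; exact hk)] at this
      rcases mul_eq_zero.mp this.symm with h2 | h2
      · exact absurd h2 hβ
      · exact h2
  have hN : Nc (b n) = 0 := by
    rw [Nc, Finset.card_eq_zero, Finset.eq_empty_iff_forall_notMem]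
    intro i hi
    obtain ⟨h1, j, hj, h2, _⟩ := mem_Ch.mp hi
    have h3 : i = m := by by_contra hne; exact h1 (hz i hne)
    have h4 : j = m := by by_contra hne; exact h2 (hz j hne)
    omega
  obtain ⟨r, hr⟩ := (hb (n + 1)).1.2.2
  rw [hN] at hr
  have : 0 < 2 ^ c (ini b n) * (2 * r + 1) := by positivity
  omega

lemma fam_infinite {c : List (V F) → ℕ} (hc : Coding c) (hF : ∃ β : F, β ≠ 0 ∧ β ≠ 1) :
    (Fam c).Infinite := by
  -- the coordinate subspaces on disjoint infinite sets
  let U : ℕ → Submodule F (V F) := fun k =>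
    Submodule.span F (Set.range fun m : ℕ => Finsupp.single (Nat.pair k m) (1 : F))
  have hU : ∀ k, ∃ b, IsBr c b ∧ ∀ n, b n ∈ U k := by
    intro k
    have hmono : ∀ i, Nat.pair k i < Nat.pair k (i + 1) := fun i => Nat.pair_lt_pair_right k (by omega)
    rcases dich (U := U k) (g := fun i => Finsupp.single (Nat.pair k i) (1 : F))
      (p := fun i => Nat.pair k i) (q := fun i => Nat.pair k i) hc hF
      (fun i => Submodule.subset_span ⟨i, rfl⟩) (fun i => ⟨by simp, by simp,
        fun j hj => by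
          rw [Finsupp.single_eq_of_ne (by omega)], fun j hj => by
          rw [Finsupp.single_eq_of_ne (by omega)]⟩) hmono with h | ⟨b, hb, i0, hi0⟩
    · exact h
    · exact absurd (hi0 i0 le_rfl) (single_not_mem hb _)
  choose b hb hbU using hU
  refine Set.infinite_of_injective_forall_mem (f := fun k => sp (b k)) ?_ (fun k => ⟨b k, hb k, rfl⟩)
  have hsupp : ∀ k, ∀ u ∈ U k, ∀ n, u n ≠ 0 → ∃ m, n = Nat.pair k m := by
    intro k u hu n hn
    obtain ⟨w, ⟨m, rfl⟩, hw⟩ := exists_ne_of_span hu hn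
    refine ⟨m, ?_⟩
    by_contra hne
    exact hw (Finsupp.single_eq_of_ne hne)
  intro k k' hkk
  obtain ⟨m, hm, _, _⟩ := (hb k).fst 0
  have h1 : b k 0 ∈ U k := hbU k 0
  have h2 : b k 0 ∈ U k' := by
    have h3 : b k 0 ∈ sp (b k') := by
      have h4 : sp (b k) = sp (b k') := hkk
      rw [← h4]; exact Submodule.subset_span ⟨0, rfl⟩
    have h5 : sp (b k') ≤ U k' := by
      apply Submodule.span_le.mpr
      rintro w ⟨i, rfl⟩
      exact hbU k' i
    exact h5 h3
  have hne : b k 0 m ≠ 0 := by rw [hm.1]; exact one_ne_zero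
  obtain ⟨m1, hm1⟩ := hsupp k _ h1 m hne
  obtain ⟨m2, hm2⟩ := hsupp k' _ h2 m hne
  rw [hm1] at hm2
  exact (Nat.pair_eq_pair.mp hm2).1

lemma ev_coord (a : ℕ → ℕ) (i : ℕ) : ∀ᶠ a' in nhds a, a' i = a i := by
  have h : Filter.Tendsto (fun a' : ℕ → ℕ => a' i) (nhds a) (nhds (a i)) :=
    (continuous_apply i).tendsto a
  rw [nhds_discrete ℕ, Filter.tendsto_pure] at h
  exact h

/-- coded points -/
def Cd (c : List (V F) → ℕ) (e : ℕ ≃ V F) : Set (ℕ → ℕ) := {a | IsBr c (fun n => e (a n))}

lemma cd_closed (c : List (V F) → ℕ) (e : ℕ ≃ V F) : IsClosed (Cd c e) := by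
  rw [← isOpen_compl_iff, isOpen_iff_mem_nhds]
  intro a ha
  have ha' : ¬ ∀ n, Valid c (ini (fun n => e (a n)) n) := ha
  push Not at ha'
  obtain ⟨n, hn⟩ := ha'
  have hev : ∀ᶠ a' in nhds a, ∀ i ∈ Finset.range n, a' i = a i := by
    rw [Filter.eventually_all_finset]
    intro i _
    exact ev_coord a i
  filter_upwards [hev] with a' h'
  intro hbr
  apply hn
  have : ini (fun n => e (a n)) n = ini (fun n => e (a' n)) n :=
    ini_congr (fun i hi => by rw [h' i (by simpa using hi)])
  rw [this]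
  exact hbr n

lemma cd_continuous (c : List (V F) → ℕ) (e : ℕ ≃ V F) :
    ContinuousOn (fun a : ℕ → ℕ => charPoint F (sp (fun n => e (a n)))) (Cd c e) := by
  rw [continuousOn_pi]
  intro x a ha
  obtain ⟨N, hN⟩ : ∃ N, Blw N x := by
    by_cases hx : x = 0
    · exact ⟨0, by rw [hx]; exact blw_zero 0⟩
    · obtain ⟨p, q, h⟩ := exists_sh hx
      exact ⟨q + 1, h.blw (by omega)⟩
  have hev : ∀ᶠ a' in nhdsWithin a (Cd c e), ∀ i ∈ Finset.range N, a' i = a i := by
    rw [Filter.eventually_all_finset]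
    intro i _
    exact (ev_coord a i).filter_mono nhdsWithin_le_nhds
  have hev2 : ∀ᶠ a' in nhdsWithin a (Cd c e),
      charPoint F (sp (fun n => e (a' n))) x = charPoint F (sp (fun n => e (a n))) x := by
    filter_upwards [hev, self_mem_nhdsWithin] with a' h' h''
    unfold charPoint
    rw [decide_eq_decide]
    have h1 := IsBr.mem_iff (b := fun n => e (a' n)) h'' hN
    have h2 := IsBr.mem_iff (b := fun n => e (a n)) ha hN
    rw [h1, h2]
    have : ini (fun n => e (a n)) N = ini (fun n => e (a' n)) N :=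
      ini_congr (fun i hi => by rw [h' i (by simpa using hi)])
    rw [this]
  exact (tendsto_const_nhds.congr' (hev2.mono fun _ h => h.symm))

lemma fam_image (c : List (V F) → ℕ) (e : ℕ ≃ V F) :
    charPoint F '' (Fam c) =
      (fun a : ℕ → ℕ => charPoint F (sp (fun n => e (a n)))) '' (Cd c e) := by
  ext f
  constructor
  · rintro ⟨Y, ⟨b, hb, rfl⟩, rfl⟩
    refine ⟨fun n => e.symm (b n), ?_, ?_⟩
    · show IsBr c (fun n => e (e.symm (b n)))
      simpa using hb
    · simp
  · rintro ⟨a, ha, rfl⟩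
    exact ⟨_, ⟨_, ha, rfl⟩, rfl⟩

lemma charPoint_injective : Function.Injective (charPoint F) := by
  intro X Y h
  ext x
  have := congrFun h x
  unfold charPoint at this
  rwa [decide_eq_decide] at this

lemma sp_inj {c : List (V F) → ℕ} (hc : Coding c) {b b' : ℕ → V F} (hb : IsBr c b)
    (hb' : IsBr c b') (h : sp b = sp b') : b = b' := by
  by_contra hne
  have := hb.ad hc hb' hne
  rw [← h, inf_idem] at this
  exact hb.infinite this

theorem positive (F : Type*) [Field F] [Countable F] (hF : ∃ β : F, β ≠ 0 ∧ β ≠ 1) :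
    ∃ A : Set (Submodule F (ℕ →₀ F)), IsMadFamily F A ∧ A.Infinite ∧ IsAnalyticFamily F A ∧
      IsBorelFamily F A := by
  obtain ⟨c, hc⟩ := exists_coding (F := F)
  have : Infinite (V F) := by
    apply Infinite.of_injective (fun n : ℕ => Finsupp.single n (1 : F))
    intro m n h
    exact (Finsupp.single_left_inj one_ne_zero).mp h
  obtain ⟨hden⟩ := nonempty_denumerable (V F)
  let e : ℕ ≃ V F := (Denumerable.eqv (V F)).symm
  refine ⟨Fam c, fam_mad hc hF, fam_infinite hc hF, ?_, ?_⟩
  · unfold IsAnalyticFamily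
    rw [fam_image c e]
    exact (cd_closed c e).analyticSet.image_of_continuousOn (cd_continuous c e)
  · unfold IsBorelFamily
    rw [fam_image c e]
    let _ : MeasurableSpace ((ℕ →₀ F) → Bool) := borel _
    have : BorelSpace ((ℕ →₀ F) → Bool) := ⟨rfl⟩
    apply (cd_closed c e).measurableSet_image_of_continuousOn_injOn (cd_continuous c e)
    intro a ha a' ha' h
    have h1 : sp (fun n => e (a n)) = sp (fun n => e (a' n)) := charPoint_injective h
    have h2 := sp_inj hc ha ha' h1
    funext n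
    exact e.injective (congrFun h2 n)

end Final

end Pool.Agent.MP5897b0
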