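import Mathlib
import Pool.Agent.MP_5897b0.Defs
import Pool.Agent.MP_5897b0.PosE
import Pool.Agent.MP_5897b0.NegA
import Pool.Agent.MP_5897b0.NegB

namespace Pool.Agent.MP5897b0

section Vec

variable {F : Type*} [Field F]

/-- an upper bound of the support -/
noncomputable def bd (x : V F) : ℕ := x.support.sup id + 1

lemma blw_bd (x : V F) : Blw (bd x) x := by
  intro k hk
  by_contra hne
  have h1 : k ∈ x.support := Finsupp.mem_support_iff.mpr hne
  have h2 : id k ≤ x.support.sup id := Finset.le_sup h1
  unfold bd at hk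
  simp only [id] at h2
  omega

lemma lt_bd {x : V F} (h : x ≠ 0) {n : ℕ} (ha : Abv n x) : n < bd x := by
  obtain ⟨p, q, hs⟩ := exists_sh h
  by_contra hcon
  push Not at hcon
  have h1 : n ≤ p := by
    by_contra hlt
    exact hs.1 (ha p (by omega))
  exact hs.1 (blw_bd x p (hcon.trans h1))

lemma ne_zero_of_far {x y : V F} (hx : Blw (bd x) x) {m : ℕ} (hm : bd x ≤ m) (hy0 : y ≠ 0)
    (hy : Abv m y) : x + y ≠ 0 ∧ x - y ≠ 0 := by
  obtain ⟨p, q, hs⟩ := exists_sh hy0
  have h1 : m ≤ p := by
    by_contra hlt
    exact hs.1 (hy p (by omega))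
  have h2 : x p = 0 := hx p (hm.trans h1)
  constructor
  · intro h
    have := DFunLike.congr_fun h p
    simp only [Finsupp.coe_add, Pi.add_apply, h2, zero_add, Finsupp.coe_zero, Pi.zero_apply] at this
    exact hs.1 this
  · intro h
    have := DFunLike.congr_fun h p
    simp only [Finsupp.coe_sub, Pi.sub_apply, h2, zero_sub, Finsupp.coe_zero, Pi.zero_apply,
      neg_eq_zero] at this
    exact hs.1 this

/-- sums of vectors along a list of pairs -/
noncomputable def w (v : ℕ → ℕ → V F) : List ℕ → V F
  | n :: m :: l => v n m + w v l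
  | _ => 0

lemma w_append (v : ℕ → ℕ → V F) : ∀ (β β' : List ℕ), Even β.length →
    w v (β ++ β') = w v β + w v β'
  | [], β', _ => by simp [w]
  | [n], β', h => by simp at h
  | n :: m :: l, β', h => by
    have h1 : Even l.length := by
      simp only [List.length_cons] at h
      rw [Nat.even_add_one, Nat.not_even_iff_odd] at h
      have := Nat.odd_add_one.mp h
      exact Nat.not_odd_iff_even.mp this
    have h2 := w_append v l β' h1
    simp only [List.cons_append, w, h2, add_assoc]

lemma w_abv {v : ℕ → ℕ → V F} (hv : ∀ n m, Abv m (v n m)) {k : ℕ} : ∀ (β : List ℕ),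
    (∀ x ∈ β, k ≤ x) → Abv k (w v β)
  | [], _ => by simp [w, Abv]
  | [n], _ => by simp [w, Abv]
  | n :: m :: l, h => by
    have h1 : ∀ x ∈ l, k ≤ x := fun x hx => h x (by simp [hx])
    have h2 := w_abv hv l h1
    simp only [w]
    exact ((hv n m).mono (h m (by simp))).add h2

lemma odd_split {α : List ℕ} (h : Odd α.length) : ∃ α' n, α = α' ++ [n] ∧ Even α'.length := by
  have hne : α ≠ [] := by rintro rfl; simp at h
  refine ⟨α.dropLast, α.getLast hne, (List.dropLast_append_getLast hne).symm, ?_⟩
  rw [List.length_dropLast]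
  obtain ⟨k, hk⟩ := h
  rw [hk]; simp

lemma w_last {v : ℕ → ℕ → V F} {α' : List ℕ} (h : Even α'.length) (n m : ℕ) :
    w v (α' ++ [n] ++ [m]) = w v α' + v n m := by
  rw [List.append_assoc, w_append v _ _ h]
  simp [w]

end Vec

section Mad

variable {F : Type*} [Field F]

lemma mad_meet {A : Set (Submodule F (ℕ →₀ F))} (hA : IsMadFamily F A)
    {Z : Submodule F (V F)} (hZ : ¬ FiniteDimensional F Z) :
    ∃ Y ∈ A, ¬ FiniteDimensional F (Y ⊓ Z : Submodule F (V F)) := by
  by_contra hcon
  push Not at hcon
  have hZA : Z ∉ A := by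
    intro h
    have := hcon Z h
    rw [inf_idem] at this
    exact hZ this
  have hB : IsADFamily F (insert Z A) := by
    constructor
    · intro Y hY
      rcases Set.mem_insert_iff.mp hY with rfl | hY
      · exact hZ
      · exact hA.1.1 Y hY
    · intro Y hY Y' hY' hne
      rcases Set.mem_insert_iff.mp hY with h1 | h1
      · rcases Set.mem_insert_iff.mp hY' with h2 | h2
        · exact absurd (h1.trans h2.symm) hne
        · rw [h1, inf_comm]; exact hcon Y' h2
      · rcases Set.mem_insert_iff.mp hY' with h2 | h2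
        · rw [h2]; exact hcon Y h1
        · exact hA.1.2 Y h1 Y' h2 hne
  have := hA.2 _ hB (Set.subset_insert _ _)
  apply hZA
  rw [← this]
  exact Set.mem_insert _ _

end Mad

section Seq

variable {P : Type*}

/-- all steps of a history are legal -/
def Gdh (Step : List P → P → Prop) : List P → Prop
  | [] => True
  | p :: H => Gdh Step H ∧ Step H p

lemma exists_seq (Step : List P → P → Prop) (h : ∀ H, Gdh Step H → ∃ p, Step H p) :
    ∃ π : ℕ → P, ∀ n, Gdh Step (ini π n) := by
  classical
  obtain ⟨p0, -⟩ := h [] trivial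
  let nx : List P → P := fun H => if hH : Gdh Step H then (h H hH).choose else p0
  have hnx : ∀ H, Gdh Step H → Step H (nx H) := by
    intro H hH
    simp only [nx, dif_pos hH]
    exact (h H hH).choose_spec
  let Hs : ℕ → List P := fun n => Nat.rec [] (fun _ H => nx H :: H) n
  have hHs : ∀ n, ini (fun i => nx (Hs i)) n = Hs n := by
    intro n
    induction n with
    | zero => rfl
    | succ n ih => 
      show nx (Hs n) :: ini (fun i => nx (Hs i)) n = Hs (n + 1)
      rw [ih]
  refine ⟨fun i => nx (Hs i), ?_⟩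
  intro n
  rw [hHs]
  induction n with
  | zero => exact trivial
  | succ n ih => exact ⟨ih, hnx _ ih⟩

end Seq

section Tree

/-- the ultrafilter attached to a node: at even nodes an odd list is played, at odd nodes a
singleton list -/
noncomputable def nodeU (W : Ultrafilter ℕ) (Vu : Ultrafilter (List ℕ)) (t : List (List ℕ)) :
    Ultrafilter (List ℕ) :=
  if Even t.length then Vu else W.map (fun m => [m])

/-- a finite path follows an assignment -/
def Flw (A : List (List ℕ) → Set (List ℕ)) : List (List ℕ) → Prop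
  | [] => True
  | a :: t => a ∈ A t ∧ Flw A t

lemma fol_of_flw {A : List (List ℕ) → Set (List ℕ)} {x : ℕ → List ℕ}
    (h : ∀ n, Flw A (ini x (2 * n))) : Fol A 0 x := by
  have key : ∀ N, Flw A (ini x N) → ∀ i < N, x i ∈ A (ini x i) := by
    intro N
    induction N with
    | zero => intro _ i hi; omega
    | succ N ih =>
      intro hF i hi
      have hF' : x N ∈ A (ini x N) ∧ Flw A (ini x N) := hF
      rcases Nat.lt_succ_iff_lt_or_eq.mp hi with h1 | h1
      · exact ih hF'.2 i h1
      · rw [h1]; exact hF'.1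
  intro m _
  exact key (2 * (m + 1)) (h (m + 1)) m (by omega)

/-- glue pairs into a branch -/
def glue (p : ℕ → List ℕ × ℕ) : ℕ → List ℕ := fun i =>
  if i % 2 = 0 then (p (i / 2)).1 else [(p (i / 2)).2]

lemma glue_even (p : ℕ → List ℕ × ℕ) (k : ℕ) : glue p (2 * k) = (p k).1 := by
  simp [glue]

lemma glue_odd (p : ℕ → List ℕ × ℕ) (k : ℕ) : glue p (2 * k + 1) = [(p k).2] := by
  have h1 : (2 * k + 1) % 2 = 1 := by omega
  have h2 : (2 * k + 1) / 2 = k := by omega
  simp [glue, h1, h2]

/-- path of a list of pairs -/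
def pth : List (List ℕ × ℕ) → List (List ℕ)
  | [] => []
  | p :: H => [p.2] :: p.1 :: pth H

lemma ini_glue (p : ℕ → List ℕ × ℕ) (k : ℕ) : ini (glue p) (2 * k) = pth (ini p k) := by
  induction k with
  | zero => rfl
  | succ k ih =>
    have h1 : 2 * (k + 1) = 2 * k + 1 + 1 := by ring
    rw [h1]
    show glue p (2 * k + 1) :: glue p (2 * k) :: ini (glue p) (2 * k) =
      [(p k).2] :: (p k).1 :: pth (ini p k)
    rw [glue_even, glue_odd, ih]

end Tree

end Pool.Agent.MP5897b0
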