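import Mathlib
import Pool.Agent.MP_5897b0.NegC

namespace Pool.Agent.MP5897b0

open Filter

section Nodes

lemma nodeU_even {W : Ultrafilter ℕ} {Vu : Ultrafilter (List ℕ)} {A : List (List ℕ) → Set (List ℕ)}
    (hA : Asg (nodeU W Vu) A) {t : List (List ℕ)} (ht : Even t.length) :
    ∀ᶠ α in (Vu : Filter (List ℕ)), α ∈ A t := by
  have h := hA t
  unfold nodeU at h
  rw [if_pos ht] at h
  exact h

lemma nodeU_odd {W : Ultrafilter ℕ} {Vu : Ultrafilter (List ℕ)} {A : List (List ℕ) → Set (List ℕ)}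
    (hA : Asg (nodeU W Vu) A) {t : List (List ℕ)} (ht : Odd t.length) :
    ∀ᶠ m in (W : Filter ℕ), [m] ∈ A t := by
  have h := hA t
  unfold nodeU at h
  rw [if_neg (Nat.not_even_iff_odd.mpr ht)] at h
  exact h

lemma pth_length (H : List (List ℕ × ℕ)) : Even (pth H).length := by
  induction H with
  | nil => simp [pth]
  | cons p H ih =>
    simp only [pth, List.length_cons]
    obtain ⟨k, hk⟩ := ih
    exact ⟨k + 1, by omega⟩

end Nodes

section CaseTwo

variable {F : Type*} [Field F]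

/-- states -/
def LS : List (List ℕ × ℕ) → List (List (List ℕ) × List ℕ)
  | [] => [([], [])]
  | p :: H => LS H ++ (LS H).map (fun q => (q.1, q.2 ++ p.1 ++ [p.2])) ++
      (LS H).map (fun q => ([p.2] :: (q.2 ++ p.1) :: q.1, []))

/-- bound of the supports of a history -/
noncomputable def Mb (v : ℕ → ℕ → V F) : List (List ℕ × ℕ) → ℕ
  | [] => 0
  | p :: H => max (Mb v H) (bd (w v (p.1 ++ [p.2])))

/-- legal steps, second case -/
structure StepII (Vu : Ultrafilter (List ℕ)) (A : List (List ℕ) → Set (List ℕ))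
    (v : ℕ → ℕ → V F) (H : List (List ℕ × ℕ)) (p : List ℕ × ℕ) : Prop where
  odd : Odd p.1.length
  mem : ∀ q ∈ LS H, q.2 ++ p.1 ∈ A q.1 ∧ [p.2] ∈ A ((q.2 ++ p.1) :: q.1) ∧
    ∀ᶠ α' in (Vu : Filter (List ℕ)), q.2 ++ p.1 ++ [p.2] ++ α' ∈ A q.1
  abv : Abv (Mb v H) (w v (p.1 ++ [p.2]))
  ne : w v (p.1 ++ [p.2]) ≠ 0

variable {W : Ultrafilter ℕ} {Vu : Ultrafilter (List ℕ)} {A : List (List ℕ) → Set (List ℕ)}
  {v : ℕ → ℕ → V F}

lemma inv_two (hA : Asg (nodeU W Vu) A) : ∀ H, Gdh (StepII Vu A v) H → ∀ q ∈ LS H,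
    Even q.1.length ∧ Even q.2.length ∧ (∀ᶠ α in (Vu : Filter (List ℕ)), q.2 ++ α ∈ A q.1) ∧
      Flw A q.1 := by
  intro H
  induction H with
  | nil =>
    intro _ q hq
    simp only [LS, List.mem_singleton] at hq
    subst hq
    refine ⟨by simp, by simp, ?_, trivial⟩
    have := nodeU_even hA (t := []) (by simp)
    simpa using this
  | cons p H ih =>
    intro hG q hq
    obtain ⟨hG1, hG2⟩ := hG
    have ih' := ih hG1
    simp only [LS, List.mem_append, List.mem_map] at hq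
    rcases hq with (hq | ⟨q', hq', rfl⟩) | ⟨q', hq', rfl⟩
    · exact ih' q hq
    · obtain ⟨e1, e2, e3, e4⟩ := ih' q' hq'
      refine ⟨e1, ?_, (hG2.mem q' hq').2.2, e4⟩
      simp only [List.length_append, List.length_singleton]
      have := hG2.odd
      obtain ⟨a, ha⟩ := e2
      obtain ⟨b, hb⟩ := this
      exact ⟨a + b + 1, by omega⟩
    · obtain ⟨e1, e2, e3, e4⟩ := ih' q' hq'
      obtain ⟨m1, m2, _⟩ := hG2.mem q' hq'
      have hev : Even ([p.2] :: (q'.2 ++ p.1) :: q'.1).length := by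
        obtain ⟨a, ha⟩ := e1
        exact ⟨a + 1, by simp only [List.length_cons]; omega⟩
      refine ⟨hev, by simp, ?_, m2, m1, e4⟩
      simpa using nodeU_even hA hev

lemma step_two (hv : ∀ n m, Abv m (v n m)) (hv0 : ∀ n m, v n m ≠ 0)
    (hW : ∀ k, ∀ᶠ m in (W : Filter ℕ), k ≤ m)
    (hV : ∀ k, ∀ᶠ α in (Vu : Filter (List ℕ)), OddFar k α)
    (hVW : ∀ A : List ℕ → Prop, (∀ᶠ α in (Vu : Filter (List ℕ)), A α) →
      ∀ᶠ α in (Vu : Filter (List ℕ)), ∀ᶠ m in (W : Filter ℕ), ∀ᶠ α' in (Vu : Filter (List ℕ)),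
        A (α ++ [m] ++ α'))
    (hA : Asg (nodeU W Vu) A) (H : List (List ℕ × ℕ)) (hG : Gdh (StepII Vu A v) H) :
    ∃ p, StepII Vu A v H p := by
  have hinv := inv_two hA H hG
  have hfin : {q | q ∈ LS H}.Finite := List.finite_toSet _
  have h1 := hV (Mb v H)
  have h2 : ∀ᶠ α in (Vu : Filter (List ℕ)), ∀ q ∈ {q | q ∈ LS H}, q.2 ++ α ∈ A q.1 := by
    rw [eventually_all_finite hfin]
    intro q hq
    exact (hinv q hq).2.2.1
  have h3 : ∀ᶠ α in (Vu : Filter (List ℕ)), ∀ q ∈ {q | q ∈ LS H}, ∀ᶠ m in (W : Filter ℕ),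
      ∀ᶠ α' in (Vu : Filter (List ℕ)), q.2 ++ (α ++ [m] ++ α') ∈ A q.1 := by
    rw [eventually_all_finite hfin]
    intro q hq
    exact hVW (fun β => q.2 ++ β ∈ A q.1) (hinv q hq).2.2.1
  obtain ⟨α, ⟨hfar, hodd⟩, hα2, hα3⟩ := (h1.and (h2.and h3)).exists
  obtain ⟨α', n, hαα, hev⟩ := odd_split hodd
  have k3 : ∀ᶠ m in (W : Filter ℕ), ∀ q ∈ {q | q ∈ LS H}, [m] ∈ A ((q.2 ++ α) :: q.1) := by
    rw [eventually_all_finite hfin]
    intro q hq
    apply nodeU_odd hA
    rw [List.length_cons]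
    exact (hinv q hq).1.add_one
  have k4 : ∀ᶠ m in (W : Filter ℕ), ∀ q ∈ {q | q ∈ LS H},
      ∀ᶠ α' in (Vu : Filter (List ℕ)), q.2 ++ (α ++ [m] ++ α') ∈ A q.1 := by
    rw [eventually_all_finite hfin]
    intro q hq
    exact hα3 q hq
  obtain ⟨m, hm1, hm2, hm3, hm4⟩ :=
    ((hW (Mb v H)).and ((hW (bd (w v α'))).and (k3.and k4))).exists
  refine ⟨(α, m), hodd, ?_, ?_, ?_⟩
  · intro q hq
    refine ⟨hα2 q hq, hm3 q hq, ?_⟩
    refine (hm4 q hq).mono ?_
    intro β hβ
    simpa only [List.append_assoc] using hβ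
  · apply w_abv hv
    intro x hx
    rcases List.mem_append.mp hx with hx | hx
    · exact hfar x hx
    · rw [List.mem_singleton] at hx; rw [hx]; exact hm1
  · show w v (α ++ [m]) ≠ 0
    rw [hαα, w_last hev]
    exact (ne_zero_of_far (blw_bd _) hm2 (hv0 n m) (hv n m)).1

lemma walk (hA : Asg (nodeU W Vu) A) {π : ℕ → List ℕ × ℕ} (hπ : ∀ n, Gdh (StepII Vu A v) (ini π n))
    {j : ℕ} {t : List (List ℕ)} {γ : List ℕ} (ht : (t, γ) ∈ LS (ini π j)) {c : ℕ → V F}
    (hc : ∀ i, c i = 0 ∨ c i = w v ((π (j + i)).1 ++ [(π (j + i)).2])) :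
    ∀ n, ∃ γ', (t, γ') ∈ LS (ini π (j + n)) ∧ w v γ' = w v γ + ∑ i ∈ Finset.range n, c i := by
  intro n
  induction n with
  | zero => exact ⟨γ, ht, by simp⟩
  | succ n ih =>
    obtain ⟨γ', h1, h2⟩ := ih
    have hL : LS (ini π (j + (n + 1))) = LS (π (j + n) :: ini π (j + n)) := rfl
    rcases hc n with h | h
    · refine ⟨γ', ?_, ?_⟩
      · rw [hL]
        simp only [LS, List.mem_append, List.mem_map]
        exact Or.inl (Or.inl h1)
      · rw [Finset.sum_range_succ, h, add_zero]; exact h2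
    · refine ⟨γ' ++ (π (j + n)).1 ++ [(π (j + n)).2], ?_, ?_⟩
      · rw [hL]
        simp only [LS, List.mem_append, List.mem_map]
        exact Or.inl (Or.inr ⟨_, h1, rfl⟩)
      · rw [Finset.sum_range_succ, h, List.append_assoc,
          w_append v _ _ (inv_two hA _ (hπ (j + n)) _ h1).2.1, h2, add_assoc]

theorem caseTwo {A0 : Set (Submodule F (ℕ →₀ F))} (hmad : IsMadFamily F A0)
    (hF : ∀ β : F, β = 0 ∨ β = 1)
    (hv : ∀ n m, Abv m (v n m)) (hv0 : ∀ n m, v n m ≠ 0)
    (hW : ∀ k, ∀ᶠ m in (W : Filter ℕ), k ≤ m)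
    (hV : ∀ k, ∀ᶠ α in (Vu : Filter (List ℕ)), OddFar k α)
    (hVW : ∀ A : List ℕ → Prop, (∀ᶠ α in (Vu : Filter (List ℕ)), A α) →
      ∀ᶠ α in (Vu : Filter (List ℕ)), ∀ᶠ m in (W : Filter ℕ), ∀ᶠ α' in (Vu : Filter (List ℕ)),
        A (α ++ [m] ++ α'))
    (hA : Asg (nodeU W Vu) A) :
    ∃ x, Fol A 0 x ∧ ∃ Y ∈ A0, ∀ k, w v (x (2 * k) ++ x (2 * k + 1)) ∈ Y := by
  obtain ⟨π, hπ⟩ := exists_seq (StepII Vu A v) (step_two hv hv0 hW hV hVW hA)
  have hst : ∀ j, StepII Vu A v (ini π j) (π j) := fun j => (hπ (j + 1)).2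
  set b : ℕ → V F := fun j => w v ((π j).1 ++ [(π j).2]) with hb
  set M : ℕ → ℕ := fun j => Mb v (ini π j) with hM
  have hMs : ∀ j, M (j + 1) = max (M j) (bd (b j)) := fun j => rfl
  have hMmono : Monotone M := by
    apply monotone_nat_of_le_succ
    intro j
    rw [hMs]; exact le_max_left _ _
  have hbabv : ∀ j, Abv (M j) (b j) := fun j => (hst j).abv
  have hb0 : ∀ j, b j ≠ 0 := fun j => (hst j).ne
  have hbblw : ∀ j, Blw (M (j + 1)) (b j) := fun j =>
    (blw_bd (b j)).mono (by rw [hMs]; exact le_max_right _ _)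
  have hMj : ∀ j, j ≤ M j := by
    intro j
    induction j with
    | zero => exact Nat.zero_le _
    | succ j ih =>
      have h1 := lt_bd (hb0 j) (hbabv j)
      rw [hMs]
      have := le_max_right (M j) (bd (b j))
      omega
  set Z : Submodule F (V F) := sp b with hZ
  have hZinf : ¬ FiniteDimensional F Z := by
    rw [not_finite_iff]
    intro n
    exact ⟨b n, Submodule.subset_span ⟨n, rfl⟩, hb0 n, (hbabv n).mono (hMj n)⟩
  obtain ⟨Y, hYA, hYZ⟩ := mad_meet hmad hZinf
  rw [not_finite_iff] at hYZ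
  -- extension of fresh states
  have hext : ∀ j t, (t, []) ∈ LS (ini π j) → ∃ (p : List ℕ × ℕ) (j' : ℕ),
      ([p.2] :: p.1 :: t, []) ∈ LS (ini π j') ∧ w v (p.1 ++ [p.2]) ∈ Y := by
    intro j t ht
    obtain ⟨y, hy, hy0, hyabv⟩ := hYZ (M j)
    have hyY : y ∈ Y := hy.1
    have hyZ : y ∈ Submodule.span F (Set.range b) := hy.2
    rw [Finsupp.mem_span_range_iff_exists_finsupp] at hyZ
    obtain ⟨l, hl⟩ := hyZ
    set c : ℕ → V F := fun i => l i • b i with hcdef
    have hc : ∀ i, c i = 0 ∨ c i = b i := by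
      intro i
      rcases hF (l i) with h | h
      · left; simp [c, h]
      · right; simp [c, h]
    have hex : ∃ N, y = ∑ i ∈ Finset.range N, c i := by
      refine ⟨l.support.sup id + 1, ?_⟩
      rw [← hl]
      apply Finsupp.sum_of_support_subset
      · intro i hi
        have : id i ≤ l.support.sup id := Finset.le_sup hi
        simp only [id] at this
        rw [Finset.mem_range]; omega
      · intro i _; simp
    classical
    have hN := Nat.find_spec hex
    have hmin : ∀ m < Nat.find hex, ¬ (y = ∑ i ∈ Finset.range m, c i) := fun m hm =>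
      Nat.find_min hex hm
    generalize Nat.find hex = N at hN hmin
    have hN0 : N ≠ 0 := by
      rintro rfl
      simp only [Finset.range_zero, Finset.sum_empty] at hN
      exact hy0 hN
    obtain ⟨N', rfl⟩ := Nat.exists_eq_succ_of_ne_zero hN0
    have hcN : c N' = b N' := by
      rcases hc N' with h | h
      · exfalso
        apply hmin N' (Nat.lt_succ_self _)
        rw [hN, Nat.succ_eq_add_one, Finset.sum_range_succ, h, add_zero]
      · exact h
    have hcblw : ∀ i, Blw (M (i + 1)) (c i) := by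
      intro i
      rcases hc i with h | h
      · rw [h]; exact blw_zero _
      · rw [h]; exact hbblw i
    have hcabv : ∀ i, Abv (M i) (c i) := by
      intro i
      rcases hc i with h | h
      · rw [h]; intro k _; simp
      · rw [h]; exact hbabv i
    have hsumblw : ∀ n, Blw (M n) (∑ i ∈ Finset.range n, c i) := by
      intro n
      induction n with
      | zero => simp [blw_zero]
      | succ n ih =>
        rw [Finset.sum_range_succ]
        exact (ih.mono (hMmono (Nat.le_succ n))).add (hcblw n)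
    have hNj : j ≤ N' := by
      by_contra hlt
      push Not at hlt
      apply hy0
      have h1 : Blw (M j) y := by
        rw [hN]
        exact (hsumblw _).mono (hMmono hlt)
      ext k
      rcases Nat.lt_or_ge k (M j) with hk | hk
      · exact hyabv k hk
      · exact h1 k hk
    obtain ⟨n, rfl⟩ := Nat.exists_eq_add_of_le hNj
    have hsplit : y = (∑ i ∈ Finset.range j, c i) + ((∑ i ∈ Finset.range n, c (j + i)) +
        b (j + n)) := by
      rw [hN, Nat.succ_eq_add_one, Finset.sum_range_succ, Finset.sum_range_add, hcN, add_assoc]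
    have habvsum : ∀ n, Abv (M j) (∑ i ∈ Finset.range n, c (j + i)) := by
      intro n
      induction n with
      | zero => intro k _; simp
      | succ n ih =>
        rw [Finset.sum_range_succ]
        exact ih.add ((hcabv _).mono (hMmono (Nat.le_add_right _ _)))
    have hlow : (∑ i ∈ Finset.range j, c i) = 0 := by
      ext k
      rcases Nat.lt_or_ge k (M j) with hk | hk
      · have h1 : Abv (M j) ((∑ i ∈ Finset.range n, c (j + i)) + b (j + n)) :=
          (habvsum n).add ((hbabv _).mono (hMmono (Nat.le_add_right _ _)))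
        have h2 := hyabv k hk
        rw [hsplit] at h2
        have h3 := h1 k hk
        rw [Finsupp.add_apply, h3, add_zero] at h2
        exact h2
      · exact hsumblw j k hk
    rw [hlow, zero_add] at hsplit
    obtain ⟨γ', hγ1, hγ2⟩ := walk hA hπ ht (c := fun i => c (j + i)) (fun i => hc (j + i)) n
    refine ⟨(γ' ++ (π (j + n)).1, (π (j + n)).2), j + n + 1, ?_, ?_⟩
    · have hL : LS (ini π (j + n + 1)) = LS (π (j + n) :: ini π (j + n)) := rfl
      rw [hL]
      simp only [LS, List.mem_append, List.mem_map]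
      exact Or.inr ⟨_, hγ1, rfl⟩
    · show w v (γ' ++ (π (j + n)).1 ++ [(π (j + n)).2]) ∈ Y
      rw [List.append_assoc, w_append v _ _ (inv_two hA _ (hπ (j + n)) _ hγ1).2.1, hγ2]
      have h0 : w v [] = 0 := by simp [w]
      rw [h0, zero_add]
      have : (∑ i ∈ Finset.range n, c (j + i)) + w v ((π (j + n)).1 ++ [(π (j + n)).2]) = y :=
        hsplit.symm
      rw [this]; exact hyY
  obtain ⟨ρ, hρ⟩ := exists_seq (fun (H : List (List ℕ × ℕ)) (p : List ℕ × ℕ) =>
    w v (p.1 ++ [p.2]) ∈ Y ∧ ∃ j, (pth (p :: H), []) ∈ LS (ini π j)) (by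
      intro H hH
      have : ∃ j, (pth H, []) ∈ LS (ini π j) := by
        cases H with
        | nil => exact ⟨0, by simp [pth, ini, LS]⟩
        | cons p H => exact hH.2.2
      obtain ⟨j, hj⟩ := this
      obtain ⟨p, j', h1, h2⟩ := hext j _ hj
      exact ⟨p, h2, j', h1⟩)
  have hflw : ∀ n, Flw A (pth (ini ρ n)) := by
    intro n
    cases n with
    | zero => exact trivial
    | succ n =>
      obtain ⟨_, _, j, hj⟩ := hρ (n + 1)
      exact (inv_two hA _ (hπ j) _ hj).2.2.2
  refine ⟨glue ρ, fol_of_flw (fun n => by rw [ini_glue]; exact hflw n), Y, hYA, ?_⟩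
  intro k
  rw [glue_even, glue_odd]
  exact (hρ (k + 1)).2.1

end CaseTwo

end Pool.Agent.MP5897b0
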