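import Mathlib
import Pool.Agent.MP_5897b0.NegD

namespace Pool.Agent.MP5897b0

open Filter

section CaseOne

variable {F : Type*} [Field F]

/-- nodes for the common tail -/
def NL (r : ℕ → List ℕ × ℕ) : List (List ℕ × ℕ) → List (List (List ℕ × ℕ))
  | [] => [[r 0]]
  | p :: H => [r (H.length + 1)] :: (NL r H).map (fun q => p :: q)

/-- legal steps, first case -/
structure StepI (r : ℕ → List ℕ × ℕ) (A : List (List ℕ) → Set (List ℕ))
    (v : ℕ → ℕ → V F) (H : List (List ℕ × ℕ)) (p : List ℕ × ℕ) : Prop where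
  mem : ∀ q ∈ NL r H, p.1 ∈ A (pth q) ∧ [p.2] ∈ A (p.1 :: pth q)
  abv : Abv H.length (w v (p.1 ++ [p.2]))
  ne : w v (p.1 ++ [p.2]) ≠ 0

variable {W : Ultrafilter ℕ} {Vu : Ultrafilter (List ℕ)} {A : List (List ℕ) → Set (List ℕ)}
  {v : ℕ → ℕ → V F} {r : ℕ → List ℕ × ℕ}

lemma step_one (hv : ∀ n m, Abv m (v n m)) (hv0 : ∀ n m, v n m ≠ 0)
    (hW : ∀ k, ∀ᶠ m in (W : Filter ℕ), k ≤ m)
    (hV : ∀ k, ∀ᶠ α in (Vu : Filter (List ℕ)), OddFar k α)
    (hA : Asg (nodeU W Vu) A) (H : List (List ℕ × ℕ)) : ∃ p, StepI r A v H p := by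
  have hfin : {q | q ∈ NL r H}.Finite := List.finite_toSet _
  have h2 : ∀ᶠ α in (Vu : Filter (List ℕ)), ∀ q ∈ {q | q ∈ NL r H}, α ∈ A (pth q) := by
    rw [eventually_all_finite hfin]
    intro q _
    exact nodeU_even hA (pth_length q)
  obtain ⟨α, ⟨hfar, hodd⟩, hα2⟩ := ((hV H.length).and h2).exists
  obtain ⟨α', n, hαα, hev⟩ := odd_split hodd
  have k3 : ∀ᶠ m in (W : Filter ℕ), ∀ q ∈ {q | q ∈ NL r H}, [m] ∈ A (α :: pth q) := by
    rw [eventually_all_finite hfin]
    intro q _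
    apply nodeU_odd hA
    rw [List.length_cons]
    exact (pth_length q).add_one
  obtain ⟨m, hm1, hm2, hm3⟩ := ((hW H.length).and ((hW (bd (w v α'))).and k3)).exists
  refine ⟨(α, m), fun q hq => ⟨hα2 q hq, hm3 q hq⟩, ?_, ?_⟩
  · apply w_abv hv
    intro x hx
    rcases List.mem_append.mp hx with hx | hx
    · exact hfar x hx
    · rw [List.mem_singleton] at hx; rw [hx]; exact hm1
  · show w v (α ++ [m]) ≠ 0
    rw [hαα, w_last hev]
    exact (ne_zero_of_far (blw_bd _) hm2 (hv0 n m) (hv n m)).1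

/-- the branch with root `r i` and tail starting at `i` -/
def brn (r : ℕ → List ℕ × ℕ) (π : ℕ → List ℕ × ℕ) (i : ℕ) : ℕ → List ℕ × ℕ
  | 0 => r i
  | k + 1 => π (i + k)

lemma ini_brn_mem (r : ℕ → List ℕ × ℕ) (π : ℕ → List ℕ × ℕ) (i n : ℕ) :
    ini (brn r π i) (n + 1) ∈ NL r (ini π (i + n)) := by
  induction n with
  | zero =>
    cases i with
    | zero => simp [ini, NL, brn]
    | succ i => 
      show [r (i + 1)] ∈ NL r (π i :: ini π i)
      simp only [NL, ini_length]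
      exact List.mem_cons_self
  | succ n ih =>
    show π (i + n) :: ini (brn r π i) (n + 1) ∈ NL r (π (i + n) :: ini π (i + n))
    simp only [NL, List.mem_cons, List.mem_map]
    exact Or.inr ⟨_, ih, rfl⟩

lemma inv_one (hr : ∀ i, Flw A (pth [r i])) : ∀ H, Gdh (StepI r A v) H → ∀ q ∈ NL r H,
    Flw A (pth q) := by
  intro H
  induction H with
  | nil =>
    intro _ q hq
    simp only [NL, List.mem_singleton] at hq
    rw [hq]; exact hr 0
  | cons p H ih =>
    intro hG q hq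
    simp only [NL, List.mem_cons, List.mem_map] at hq
    rcases hq with rfl | ⟨q', hq', rfl⟩
    · exact hr _
    · obtain ⟨h1, h2⟩ := hG.2.mem q' hq'
      exact ⟨h2, h1, ih hG.1 q' hq'⟩

lemma root_eq {A0 : Set (Submodule F (ℕ →₀ F))} (had : IsADFamily F A0)
    {Y X : Submodule F (V F)} (hY : Y ∈ A0) (hX : X ∈ A0) {u0 : V F} {u : ℕ → V F}
    (hu : ∀ k, Abv k (u k)) (hu0 : ∀ k, u k ≠ 0) (huX : ∀ k, u k ∈ X)
    (huY : ∀ k, u0 + u k ∈ Y) : Y = X := by
  by_contra hne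
  have h1 := had.2 Y hY X hX hne
  revert h1
  rw [imp_false, not_finite_iff]
  intro N
  set k' := max N (bd (u N)) with hk'
  refine ⟨u N - u k', ⟨?_, X.sub_mem (huX _) (huX _)⟩, ?_, ?_⟩
  · have : u N - u k' = (u0 + u N) - (u0 + u k') := by abel
    rw [this]; exact Y.sub_mem (huY _) (huY _)
  · exact (ne_zero_of_far (blw_bd _) (le_max_right _ _) (hu0 k') (hu k')).2
  · exact (hu N).sub ((hu k').mono (le_max_left _ _))

theorem caseOne {A0 : Set (Submodule F (ℕ →₀ F))} (had : IsADFamily F A0)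
    {X : ℕ → Submodule F (V F)} (hX : ∀ n, X n ∈ A0) (hinj : Function.Injective X)
    (hvX : ∀ n m, v n m ∈ X n)
    (hv : ∀ n m, Abv m (v n m)) (hv0 : ∀ n m, v n m ≠ 0)
    (hW : ∀ k, ∀ᶠ m in (W : Filter ℕ), k ≤ m)
    (hV : ∀ k, ∀ᶠ α in (Vu : Filter (List ℕ)), OddFar k α)
    (hA : Asg (nodeU W Vu) A)
    (hall : ∀ x, Fol A 0 x → ∃ Y ∈ A0, ∀ k, w v (x (2 * k) ++ x (2 * k + 1)) ∈ Y) : False := by
  have h0 : ∀ᶠ α in (Vu : Filter (List ℕ)), α ∈ A [] := nodeU_even hA (by simp)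
  have hpick : ∀ k, ∃ α ∈ A [], ∃ α' n, α = α' ++ [n] ∧ Even α'.length ∧ k ≤ n ∧
      ∃ f : ℕ → ℕ, ∀ i, i ≤ f i ∧ [f i] ∈ A [α] := by
    intro k
    obtain ⟨α, hα, hfar, hodd⟩ := (h0.and (hV k)).exists
    obtain ⟨α', n, hαα, hev⟩ := odd_split hodd
    have hm : ∀ᶠ m in (W : Filter ℕ), [m] ∈ A [α] := nodeU_odd hA (by simp)
    have hf : ∀ i, ∃ m, i ≤ m ∧ [m] ∈ A [α] := fun i => ((hW i).and hm).exists
    choose f hf using hf
    exact ⟨α, hα, α', n, hαα, hev, hfar n (by rw [hαα]; simp), f, hf⟩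
  obtain ⟨α, hα, α', n, hαα, hev, -, f, hf⟩ := hpick 0
  obtain ⟨β, hβ, β', n', hββ, hev', hn', f', hf'⟩ := hpick (n + 1)
  let r : ℕ → List ℕ × ℕ := fun i => if i % 2 = 0 then (α, f (i / 2)) else (β, f' (i / 2))
  have hr0 : ∀ k, r (2 * k) = (α, f k) := by intro k; simp [r]
  have hr1 : ∀ k, r (2 * k + 1) = (β, f' k) := by
    intro k
    have h1 : (2 * k + 1) % 2 = 1 := by omega
    have h2 : (2 * k + 1) / 2 = k := by omega
    simp [r, h1, h2]
  have hr : ∀ i, Flw A (pth [r i]) := by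
    intro i
    rcases Nat.even_or_odd' i with ⟨k, rfl | rfl⟩
    · rw [hr0]; exact ⟨(hf k).2, hα, trivial⟩
    · rw [hr1]; exact ⟨(hf' k).2, hβ, trivial⟩
  obtain ⟨π, hπ⟩ := exists_seq (StepI r A v) (fun H _ => step_one hv hv0 hW hV hA H)
  have hst : ∀ j, StepI r A v (ini π j) (π j) := fun j => (hπ (j + 1)).2
  have hflw : ∀ i n, Flw A (pth (ini (brn r π i) n)) := by
    intro i n
    cases n with
    | zero => exact trivial
    | succ n => exact inv_one hr _ (hπ (i + n)) _ (ini_brn_mem r π i n)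
  have hY : ∀ i, ∃ Y ∈ A0, ∀ k, w v ((brn r π i k).1 ++ [(brn r π i k).2]) ∈ Y := by
    intro i
    obtain ⟨Y, hYA, hY⟩ := hall (glue (brn r π i))
      (fol_of_flw (fun n => by rw [ini_glue]; exact hflw i n))
    refine ⟨Y, hYA, ?_⟩
    intro k
    have := hY k
    rwa [glue_even, glue_odd] at this
  choose Y hYA hYm using hY
  have heq : ∀ i, Y i = Y 0 := by
    intro i
    by_contra hne
    have h1 := had.2 _ (hYA i) _ (hYA 0) hne
    revert h1
    rw [imp_false, not_finite_iff]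
    intro N
    have hs := hst (i + N)
    have hl : (ini π (i + N)).length = i + N := ini_length _ _
    refine ⟨w v ((π (i + N)).1 ++ [(π (i + N)).2]), ⟨hYm i (N + 1), ?_⟩, hs.ne, ?_⟩
    · have := hYm 0 (i + N + 1)
      simp only [brn, zero_add] at this
      exact this
    · have := hs.abv
      rw [hl] at this
      exact this.mono (by omega)
  have hYn : Y 0 = X n := by
    refine root_eq had (hYA 0) (hX n) (u0 := w v α') (u := fun k => v n (f k)) ?_ ?_ ?_ ?_
    · exact fun k => (hv n _).mono (hf k).1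
    · exact fun k => hv0 _ _
    · exact fun k => hvX _ _
    · intro k
      have h1 := hYm (2 * k) 0
      rw [heq] at h1
      have h2 : brn r π (2 * k) 0 = (α, f k) := hr0 k
      rw [h2] at h1
      simp only [hαα] at h1
      rwa [w_last hev] at h1
  have hYn' : Y 0 = X n' := by
    refine root_eq had (hYA 0) (hX n') (u0 := w v β') (u := fun k => v n' (f' k)) ?_ ?_ ?_ ?_
    · exact fun k => (hv n' _).mono (hf' k).1
    · exact fun k => hv0 _ _
    · exact fun k => hvX _ _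
    · intro k
      have h1 := hYm (2 * k + 1) 0
      rw [heq] at h1
      have h2 : brn r π (2 * k + 1) 0 = (β, f' k) := hr1 k
      rw [h2] at h1
      simp only [hββ] at h1
      rwa [w_last hev'] at h1
  have := hinj (hYn.symm.trans hYn')
  omega

end CaseOne

section Negative

theorem negative (F : Type*) [Field F] (hF : ∀ β : F, β = 0 ∨ β = 1)
    {A0 : Set (Submodule F (ℕ →₀ F))} (hmad : IsMadFamily F A0) (hinf : A0.Infinite)
    (han : IsAnalyticFamily F A0) : False := by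
  obtain ⟨X, hXA, hXinj⟩ : ∃ X : ℕ → Submodule F (V F), (∀ n, X n ∈ A0) ∧ Function.Injective X := by
    refine ⟨fun n => (hinf.natEmbedding A0 n : Submodule F (V F)), fun n => Subtype.coe_prop _, ?_⟩
    intro m n h
    exact (hinf.natEmbedding A0).injective (Subtype.ext h)
  have hv : ∀ n m, ∃ u ∈ X n, u ≠ 0 ∧ Abv m u := fun n m =>
    not_finite_iff.mp (hmad.1.1 _ (hXA n)) m
  choose v hvX hv0 hv using hv
  obtain ⟨W, Vu, hW, hV, hVW⟩ := exists_uf
  unfold IsAnalyticFamily at han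
  rw [MeasureTheory.AnalyticSet] at han
  rcases han with hemp | ⟨φ, hφ, hran⟩
  · have : charPoint F (X 0) ∈ charPoint F '' A0 := ⟨_, hXA 0, rfl⟩
    rw [hemp] at this
    exact this
  let C : (ℕ → List ℕ) → (ℕ → ℕ) → Prop := fun x a => ∀ k, φ a (w v (x (2 * k) ++ x (2 * k + 1))) = true
  have hclosed : ∀ x y, ¬ C x y → ∃ n, ∀ x' y', (∀ i < n, x' i = x i) → (∀ i < n, y' i = y i) →
      ¬ C x' y' := by
    intro x y h
    simp only [C, not_forall] at h
    obtain ⟨k, hk⟩ := h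
    set u := w v (x (2 * k) ++ x (2 * k + 1)) with hu
    have hcont : Continuous (fun a => φ a u) := (continuous_apply u).comp hφ
    have hopen : IsOpen {a | φ a u = φ y u} := 
      (isOpen_discrete {b : Bool | b = φ y u}).preimage hcont
    have hmem : {a | φ a u = φ y u} ∈ nhds y := hopen.mem_nhds rfl
    obtain ⟨N, hN⟩ : ∃ N, ∀ y', (∀ i < N, y' i = y i) → φ y' u = φ y u := by
      rw [nhds_pi, Filter.mem_pi] at hmem
      obtain ⟨I, hI, t, ht, hsub⟩ := hmem
      refine ⟨hI.toFinset.sup id + 1, fun y' hy' => ?_⟩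
      apply hsub
      intro i hi
      have h1 : id i ≤ hI.toFinset.sup id := Finset.le_sup (by simpa using hi)
      simp only [id] at h1
      rw [hy' i (by omega)]
      exact mem_of_mem_nhds (ht i)
    refine ⟨max N (2 * k + 2), fun x' y' hx' hy' hC => ?_⟩
    apply hk
    have h1 := hC k
    rw [hx' (2 * k) (lt_of_lt_of_le (by omega) (le_max_right _ _)),
      hx' (2 * k + 1) (lt_of_lt_of_le (by omega) (le_max_right _ _)), ← hu] at h1
    rw [← hN y' (fun i hi => hy' i (lt_of_lt_of_le hi (le_max_left _ _)))]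
    exact h1
  have hCY : ∀ x, (∃ y, C x y) ↔ ∃ Y ∈ A0, ∀ k, w v (x (2 * k) ++ x (2 * k + 1)) ∈ Y := by
    intro x
    constructor
    · rintro ⟨y, hy⟩
      have : φ y ∈ charPoint F '' A0 := by rw [← hran]; exact ⟨y, rfl⟩
      obtain ⟨Y, hYA, hYe⟩ := this
      refine ⟨Y, hYA, fun k => ?_⟩
      have h1 := hy k
      rw [← hYe] at h1
      simpa [charPoint] using h1
    · rintro ⟨Y, hYA, hY⟩
      have : charPoint F Y ∈ Set.range φ := by rw [hran]; exact ⟨Y, hYA, rfl⟩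
      obtain ⟨y, hy⟩ := this
      refine ⟨y, fun k => ?_⟩
      rw [hy]
      simpa [charPoint] using hY k
  rcases dichotomy (nodeU W Vu) C hclosed with ⟨A, hA, h⟩ | ⟨A, hA, h⟩
  · refine caseOne hmad.1 hXA hXinj hvX hv hv0 hW hV hA ?_
    intro x hx
    exact (hCY x).mp (h x rfl hx)
  · obtain ⟨x, hx, hY⟩ := caseTwo hmad hF hv hv0 hW hV hVW hA
    exact h x rfl hx ((hCY x).mpr hY)

end Negative

end Pool.Agent.MP5897b0
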